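import Mathlib

/-! Pairs `(s, v)` with `p ^ 2` dividing the cubic form. -/

set_option autoImplicit false

namespace Pool.Agent.TH562.TW

open Finset

/-- the cubic form -/
def GZ (A B : ℤ) (m s v : ℕ) : ℤ :=
  ((s : ℤ) - m * v) ^ 3 + A * ((s : ℤ) - m * v) * (v : ℤ) ^ 2 + B * (v : ℤ) ^ 3

theorem same_color {p : ℕ} (hp : p.Prime) {A B : ℤ} (hdisc : ¬ (p : ℤ) ∣ 4 * A ^ 3 + 27 * B ^ 2)
    {m s v s' v' : ℕ} (h : ((p ^ 2 : ℕ) : ℤ) ∣ GZ A B m s v)
    (h' : ((p ^ 2 : ℕ) : ℤ) ∣ GZ A B m s' v') (hv : ¬ p ∣ v) (hv' : ¬ p ∣ v')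
    (hc : (p : ℤ) ∣ ((s : ℤ) - m * v) * v' - ((s' : ℤ) - m * v') * v) :
    ((p ^ 2 : ℕ) : ℤ) ∣ (s : ℤ) * v' - s' * v := by
  have hpZ : Prime (p : ℤ) := Nat.prime_iff_prime_int.1 hp
  have hvZ : ¬ (p : ℤ) ∣ (v : ℤ) := fun hh => hv (Int.natCast_dvd_natCast.1 hh)
  have hvZ' : ¬ (p : ℤ) ∣ (v' : ℤ) := fun hh => hv' (Int.natCast_dvd_natCast.1 hh)
  unfold GZ at h h'
  set u : ℤ := (s : ℤ) - m * v with hu
  set u' : ℤ := (s' : ℤ) - m * v' with hu'
  have hD : (s : ℤ) * v' - s' * v = u * v' - u' * v := by rw [hu, hu']; ring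
  rw [hD]
  set D : ℤ := u * v' - u' * v with hDdef
  set E : ℤ := (u * v') ^ 2 + (u * v') * (u' * v) + (u' * v) ^ 2 + A * (v : ℤ) ^ 2 * (v' : ℤ) ^ 2
    with hE
  have hDE : ((p ^ 2 : ℕ) : ℤ) ∣ D * E := by
    have : D * E = (v' : ℤ) ^ 3 * (u ^ 3 + A * u * (v : ℤ) ^ 2 + B * (v : ℤ) ^ 3) -
        (v : ℤ) ^ 3 * (u' ^ 3 + A * u' * (v' : ℤ) ^ 2 + B * (v' : ℤ) ^ 3) := by
      rw [hDdef, hE]; ring
    rw [this]
    exact dvd_sub (Dvd.dvd.mul_left h _) (Dvd.dvd.mul_left h' _)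
  have hp1 : (p : ℤ) ∣ ((p ^ 2 : ℕ) : ℤ) := by
    push_cast
    exact dvd_pow_self _ two_ne_zero
  have hpE : ¬ (p : ℤ) ∣ E := by
    intro hEd
    have h1 : (p : ℤ) ∣ (v' : ℤ) ^ 2 * (3 * u ^ 2 + A * (v : ℤ) ^ 2) := by
      have : (v' : ℤ) ^ 2 * (3 * u ^ 2 + A * (v : ℤ) ^ 2) = E + D * (3 * (u * v') - D) := by
        rw [hDdef, hE]; ring
      rw [this]
      exact dvd_add hEd (Dvd.dvd.mul_right hc _)
    have h2 : (p : ℤ) ∣ 3 * u ^ 2 + A * (v : ℤ) ^ 2 := by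
      rcases hpZ.dvd_or_dvd h1 with h3 | h3
      · exact absurd (hpZ.dvd_of_dvd_pow h3) hvZ'
      · exact h3
    have h3 : (p : ℤ) ∣ (4 * A ^ 3 + 27 * B ^ 2) * (v : ℤ) ^ 4 := by
      have : (4 * A ^ 3 + 27 * B ^ 2) * (v : ℤ) ^ 4 =
          (4 * A ^ 2 * (v : ℤ) ^ 2 + 6 * A * u ^ 2 - 9 * B * u * v) *
            (3 * u ^ 2 + A * (v : ℤ) ^ 2) -
          9 * (2 * A * u - 3 * B * v) * (u ^ 3 + A * u * (v : ℤ) ^ 2 + B * (v : ℤ) ^ 3) := by
        ring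
      rw [this]
      exact dvd_sub (Dvd.dvd.mul_left h2 _) (Dvd.dvd.mul_left (hp1.trans h) _)
    rcases hpZ.dvd_or_dvd h3 with h4 | h4
    · exact hdisc h4
    · exact hvZ (hpZ.dvd_of_dvd_pow h4)
  have hcop : IsCoprime ((p ^ 2 : ℕ) : ℤ) E := by
    push_cast
    exact ((Prime.coprime_iff_not_dvd hpZ).2 hpE).pow_left
  exact hcop.dvd_of_dvd_mul_right hDE

theorem card_fib {ι κ : Type*} [DecidableEq κ] (T : Finset ι) (f : ι → κ) (R : ℝ)
    (h : ∀ k ∈ T.image f, ((T.filter fun x => f x = k).card : ℝ) ≤ R) :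
    (T.card : ℝ) ≤ (T.image f).card * R := by
  have h1 : T.card = ∑ k ∈ T.image f, (T.filter fun x => f x = k).card :=
    Finset.card_eq_sum_card_fiberwise fun x hx => Finset.mem_coe.2 (Finset.mem_image_of_mem f hx)
  have h2 : (T.card : ℝ) = ∑ k ∈ T.image f, ((T.filter fun x => f x = k).card : ℝ) := by
    exact_mod_cast h1
  rw [h2]
  calc _ ≤ ∑ k ∈ T.image f, R := Finset.sum_le_sum h
    _ = _ := by rw [Finset.sum_const, nsmul_eq_mul]

theorem card_color {ι : Type*} {p : ℕ} (hp : p.Prime) {A B : ℤ}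
    (hdisc : ¬ (p : ℤ) ∣ 4 * A ^ 3 + 27 * B ^ 2)
    {m : ℕ} (T : Finset ι) (s v : ι → ℕ)
    (hT : ∀ x ∈ T, ((p ^ 2 : ℕ) : ℤ) ∣ GZ A B m (s x) (v x) ∧ ¬ p ∣ v x) (R : ℝ)
    (hn : ∀ T' ⊆ T, (∀ x ∈ T', ∀ y ∈ T', ((p ^ 2 : ℕ) : ℤ) ∣ (s x : ℤ) * v y - s y * v x) →
      (T'.card : ℝ) ≤ R) : (T.card : ℝ) ≤ 3 * R := by
  classical
  have : Fact p.Prime := ⟨hp⟩
  have hp1 : (p : ℤ) ∣ ((p ^ 2 : ℕ) : ℤ) := by
    push_cast
    exact dvd_pow_self _ two_ne_zero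
  set f : ι → ZMod p := fun x => (((s x : ℤ) - m * v x : ℤ) : ZMod p) * ((v x : ZMod p))⁻¹
    with hf
  have hv0 : ∀ x ∈ T, (v x : ZMod p) ≠ 0 := by
    intro x hx h0
    exact (hT x hx).2 ((ZMod.natCast_eq_zero_iff _ _).1 h0)
  set P : Polynomial (ZMod p) := Polynomial.X ^ 3 + (Polynomial.C (A : ZMod p) * Polynomial.X +
    Polynomial.C (B : ZMod p)) with hP
  have hPdeg : P.natDegree = 3 := by
    rw [hP]
    compute_degree!
  have hP0 : P ≠ 0 := by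
    intro h0
    rw [h0, Polynomial.natDegree_zero] at hPdeg
    omega
  have himg : T.image f ⊆ P.roots.toFinset := by
    intro t ht
    obtain ⟨x, hx, rfl⟩ := Finset.mem_image.1 ht
    rw [Multiset.mem_toFinset, Polynomial.mem_roots hP0, Polynomial.IsRoot.def]
    have h1 := (hT x hx).1
    have h2 : ((GZ A B m (s x) (v x) : ℤ) : ZMod p) = 0 :=
      (ZMod.intCast_zmod_eq_zero_iff_dvd _ _).2 (hp1.trans h1)
    unfold GZ at h2
    have hv := hv0 x hx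
    rw [hP, hf]
    simp only [Polynomial.eval_add, Polynomial.eval_pow, Polynomial.eval_X, Polynomial.eval_mul,
      Polynomial.eval_C]
    push_cast at h2 ⊢
    field_simp
    linear_combination h2
  have hcard3 : (T.image f).card ≤ 3 := by
    calc (T.image f).card ≤ P.roots.toFinset.card := Finset.card_le_card himg
      _ ≤ Multiset.card P.roots := Multiset.toFinset_card_le _
      _ ≤ P.natDegree := Polynomial.card_roots' P
      _ = 3 := hPdeg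
  have hR : 0 ≤ R := by
    have := hn ∅ (Finset.empty_subset _) (by simp)
    simpa using this
  have hmain := card_fib T f R (by
    intro t ht
    refine hn _ (Finset.filter_subset _ _) ?_
    intro x hx y hy
    obtain ⟨hx1, hx2⟩ := Finset.mem_filter.1 hx
    obtain ⟨hy1, hy2⟩ := Finset.mem_filter.1 hy
    refine same_color hp hdisc (hT x hx1).1 (hT y hy1).1 (hT x hx1).2 (hT y hy1).2 ?_
    rw [← ZMod.intCast_zmod_eq_zero_iff_dvd]
    have hxy : f x = f y := by rw [hx2, hy2]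
    rw [hf] at hxy
    simp only at hxy
    have h1 := hv0 x hx1
    have h2 := hv0 y hy1
    field_simp at hxy
    push_cast at hxy ⊢
    linear_combination hxy)
  have hcard3' : ((T.image f).card : ℝ) ≤ 3 := by exact_mod_cast hcard3
  calc (T.card : ℝ) ≤ (T.image f).card * R := hmain
    _ ≤ 3 * R := mul_le_mul_of_nonneg_right hcard3' hR

theorem card_spaced {ι : Type*} (F : Finset ι) (f : ι → ℝ) {a L ε : ℝ} (hε : 0 < ε) (hL : 0 ≤ L)
    (hf : ∀ x ∈ F, a ≤ f x ∧ f x ≤ a + L)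
    (hgap : ∀ x ∈ F, ∀ y ∈ F, x ≠ y → ε ≤ |f x - f y|) : (F.card : ℝ) ≤ L / ε + 1 := by
  classical
  have h1 : F.card ≤ (range (⌊L / ε⌋₊ + 1)).card := by
    apply Finset.card_le_card_of_injOn (fun x => ⌊(f x - a) / ε⌋₊)
    · intro x hx
      obtain ⟨h1, h2⟩ := hf x hx
      refine Finset.mem_coe.2 (Finset.mem_range.2 (Nat.lt_succ_of_le ?_))
      apply Nat.floor_le_floor
      apply div_le_div_of_nonneg_right _ hε.le
      linarith
    · intro x hx y hy hxy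
      by_contra hne
      have h2 := hgap x hx y hy hne
      simp only at hxy
      have a1 := Nat.floor_le (div_nonneg (sub_nonneg.2 (hf x hx).1) hε.le)
      have a2 := Nat.lt_floor_add_one ((f x - a) / ε)
      have b1 := Nat.floor_le (div_nonneg (sub_nonneg.2 (hf y hy).1) hε.le)
      have b2 := Nat.lt_floor_add_one ((f y - a) / ε)
      rw [hxy] at a1 a2
      have h3 : |(f x - a) / ε - (f y - a) / ε| < 1 := by
        rw [abs_lt]
        constructor <;> linarith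
      have h4 : (f x - a) / ε - (f y - a) / ε = (f x - f y) / ε := by ring
      rw [h4, abs_div, abs_of_pos hε, div_lt_one hε] at h3
      linarith
  rw [Finset.card_range] at h1
  have h2 : (F.card : ℝ) ≤ (⌊L / ε⌋₊ : ℝ) + 1 := by exact_mod_cast h1
  have h3 := Nat.floor_le (div_nonneg hL hε.le)
  linarith

end Pool.Agent.TH562.TW
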