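import Mathlib
import Pool.Agent.TH562.TW.Color

/-! Counting bad pairs in the strip. -/

set_option autoImplicit false

namespace Pool.Agent.TH562.TW

open Finset

/-- the strip -/
noncomputable def Reg (ρ : ℝ) (Q a I L K : ℕ) : Finset (ℕ × ℕ) := by
  classical exact (range I ×ˢ range L).filter fun x =>
    ρ * ((1 + Q * x.1 : ℕ) : ℝ) ≤ ((a + Q * x.2 : ℕ) : ℝ) ∧
    ((a + Q * x.2 : ℕ) : ℝ) < ρ * ((1 + Q * x.1 : ℕ) : ℝ) + Q * K

theorem mem_Reg {ρ : ℝ} {Q a I L K : ℕ} {x : ℕ × ℕ} : x ∈ Reg ρ Q a I L K ↔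
    (x.1 < I ∧ x.2 < L) ∧ ρ * ((1 + Q * x.1 : ℕ) : ℝ) ≤ ((a + Q * x.2 : ℕ) : ℝ) ∧
    ((a + Q * x.2 : ℕ) : ℝ) < ρ * ((1 + Q * x.1 : ℕ) : ℝ) + Q * K := by
  classical
  unfold Reg
  rw [Finset.mem_filter, Finset.mem_product, Finset.mem_range, Finset.mem_range]

theorem gap_of_dvd {d : ℕ} {x y : ℕ} (hne : x ≠ y) (h : (d : ℤ) ∣ (x : ℤ) - y) :
    (d : ℝ) ≤ |(x : ℝ) - y| := by
  have h1 : (x : ℤ) - y ≠ 0 := by
    intro h0
    exact hne (by exact_mod_cast sub_eq_zero.1 h0)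
  have h2 : (d : ℤ) ≤ |(x : ℤ) - y| := by
    apply Int.le_of_dvd (abs_pos.2 h1)
    rwa [dvd_abs]
  have h3 : ((d : ℤ) : ℝ) ≤ ((|(x : ℤ) - y| : ℤ) : ℝ) := by exact_mod_cast h2
  push_cast at h3
  exact h3

theorem row_card {ρ : ℝ} {Q a I L K : ℕ} (hQ : 0 < Q) {d : ℕ} (hd : 0 < d) {T : Finset (ℕ × ℕ)}
    (hT : T ⊆ Reg ρ Q a I L K) {i : ℕ} (hi : ∀ x ∈ T, x.1 = i)
    (hmod : ∀ x ∈ T, ∀ y ∈ T, (d : ℤ) ∣ (x.2 : ℤ) - y.2) : (T.card : ℝ) ≤ K / d + 1 := by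
  have hQ' : (0 : ℝ) < Q := by exact_mod_cast hQ
  have hd' : (0 : ℝ) < d := by exact_mod_cast hd
  refine card_spaced T (fun x => (x.2 : ℝ)) (a := (ρ * ((1 + Q * i : ℕ) : ℝ) - a) / Q) (L := K)
    hd' (Nat.cast_nonneg K) ?_ ?_
  · intro x hx
    obtain ⟨_, h1, h2⟩ := mem_Reg.1 (hT hx)
    rw [hi x hx] at h1 h2
    constructor
    · rw [div_le_iff₀ hQ']
      push_cast at h1 ⊢
      linarith
    · have h3 : (x.2 : ℝ) * Q ≤ (ρ * ((1 + Q * i : ℕ) : ℝ) - a) + K * Q := by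
        push_cast at h2 ⊢
        linarith
      have h4 : (ρ * ((1 + Q * i : ℕ) : ℝ) - a) / Q + K =
        ((ρ * ((1 + Q * i : ℕ) : ℝ) - a) + K * Q) / Q := by field_simp
      rw [h4, le_div_iff₀ hQ']
      exact h3
  · intro x hx y hy hne
    apply gap_of_dvd _ (hmod x hx y hy)
    intro h
    apply hne
    exact Prod.ext ((hi x hx).trans (hi y hy).symm) h

theorem rows_card {ρ : ℝ} {Q a I L K : ℕ} (hQ : 0 < Q) {d : ℕ} (hd : 0 < d) {T : Finset (ℕ × ℕ)}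
    (hT : T ⊆ Reg ρ Q a I L K) {F : Finset ℕ} (hF : ∀ x ∈ T, x.1 ∈ F)
    (hmod : ∀ x ∈ T, ∀ y ∈ T, x.1 = y.1 → (d : ℤ) ∣ (x.2 : ℤ) - y.2) :
    (T.card : ℝ) ≤ F.card * (K / d + 1) := by
  classical
  have h1 := card_fib T (fun x => x.1) (K / d + 1) (by
    intro k _
    refine row_card hQ hd ((Finset.filter_subset _ _).trans hT) (i := k) ?_ ?_
    · intro x hx
      exact (Finset.mem_filter.1 hx).2
    · intro x hx y hy
      obtain ⟨hx1, hx2⟩ := Finset.mem_filter.1 hx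
      obtain ⟨hy1, hy2⟩ := Finset.mem_filter.1 hy
      exact hmod x hx1 y hy1 (hx2.trans hy2.symm))
  refine h1.trans ?_
  have h2 : ((T.image fun x => x.1).card : ℝ) ≤ F.card := by
    have : (T.image fun x => x.1).card ≤ F.card := by
      apply Finset.card_le_card
      intro k hk
      obtain ⟨x, hx, rfl⟩ := Finset.mem_image.1 hk
      exact hF x hx
    exact_mod_cast this
  exact mul_le_mul_of_nonneg_right h2 (by positivity)

theorem cols_card {ρ : ℝ} (hρ : 0 < ρ) {Q a I L K : ℕ} (hQ : 0 < Q) {d : ℕ} (hd : 0 < d)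
    {T : Finset (ℕ × ℕ)} (hT : T ⊆ Reg ρ Q a I L K)
    (hmod : ∀ x ∈ T, ∀ y ∈ T, x.2 = y.2 → (d : ℤ) ∣ (x.1 : ℤ) - y.1) :
    (T.card : ℝ) ≤ L * (K / ρ / d + 1) := by
  classical
  have hQ' : (0 : ℝ) < Q := by exact_mod_cast hQ
  have hd' : (0 : ℝ) < d := by exact_mod_cast hd
  have h1 := card_fib T (fun x => x.2) (K / ρ / d + 1) (by
    intro l _
    refine card_spaced _ (fun x => (x.1 : ℝ)) (a := (((a + Q * l : ℕ) : ℝ) / ρ - Q * K / ρ - 1) / Q)
      (L := K / ρ) hd' (by positivity) ?_ ?_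
    · intro x hx
      obtain ⟨hx1, hx2⟩ := Finset.mem_filter.1 hx
      obtain ⟨_, h1, h2⟩ := mem_Reg.1 (hT hx1)
      rw [hx2] at h1 h2
      constructor
      · rw [div_le_iff₀ hQ']
        have h3 : (((a + Q * l : ℕ) : ℝ) - Q * K) / ρ ≤ ((1 + Q * x.1 : ℕ) : ℝ) := by
          rw [div_le_iff₀ hρ]; linarith
        have h4 : (((a + Q * l : ℕ) : ℝ) - Q * K) / ρ = ((a + Q * l : ℕ) : ℝ) / ρ - Q * K / ρ := by
          ring
        rw [h4] at h3
        push_cast at h3 ⊢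
        linarith
      · have h3 : ((1 + Q * x.1 : ℕ) : ℝ) ≤ ((a + Q * l : ℕ) : ℝ) / ρ := by
          rw [le_div_iff₀ hρ]; linarith
        have h4 : (((a + Q * l : ℕ) : ℝ) / ρ - Q * K / ρ - 1) / Q + K / ρ =
          (((a + Q * l : ℕ) : ℝ) / ρ - 1) / Q := by field_simp; ring
        rw [h4, le_div_iff₀ hQ']
        push_cast at h3 ⊢
        linarith
    · intro x hx y hy hne
      obtain ⟨hx1, hx2⟩ := Finset.mem_filter.1 hx
      obtain ⟨hy1, hy2⟩ := Finset.mem_filter.1 hy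
      apply gap_of_dvd _ (hmod x hx1 y hy1 (hx2.trans hy2.symm))
      intro h
      apply hne
      exact Prod.ext h (hx2.trans hy2.symm))
  refine h1.trans ?_
  have h2 : ((T.image fun x => x.2).card : ℝ) ≤ L := by
    have : (T.image fun x => x.2).card ≤ (range L).card := by
      apply Finset.card_le_card
      intro k hk
      obtain ⟨x, hx, rfl⟩ := Finset.mem_image.1 hk
      exact Finset.mem_range.2 (mem_Reg.1 (hT hx)).1.2
    rw [Finset.card_range] at this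
    exact_mod_cast this
  exact mul_le_mul_of_nonneg_right h2 (by positivity)

theorem cop_cancel {p Q : ℕ} (hp : p.Prime) (hQp : ¬ p ∣ Q) {k : ℕ} {x : ℤ}
    (h : ((p ^ k : ℕ) : ℤ) ∣ (Q : ℤ) * x) : ((p ^ k : ℕ) : ℤ) ∣ x := by
  have hcop : IsCoprime ((p ^ k : ℕ) : ℤ) (Q : ℤ) := by
    rw [Nat.isCoprime_iff_coprime]
    exact Nat.Coprime.pow_left k ((Nat.Prime.coprime_iff_not_dvd hp).2 hQp)
  exact hcop.dvd_of_dvd_mul_left h

/-- number of `i < I` with `p ∣ 1 + Q i` -/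
theorem card_s {p Q : ℕ} (hp : p.Prime) (hQp : ¬ p ∣ Q) (I : ℕ) :
    (((range I).filter fun i => p ∣ 1 + Q * i).card : ℝ) ≤ I / p + 1 := by
  have hp0 : (0 : ℝ) < p := by exact_mod_cast hp.pos
  refine card_spaced _ (fun x : ℕ => (x : ℝ)) (a := 0) (L := I) hp0 (Nat.cast_nonneg I) ?_ ?_
  · intro x hx
    have h1 := Finset.mem_range.1 (Finset.mem_filter.1 hx).1
    refine ⟨Nat.cast_nonneg x, ?_⟩
    rw [zero_add]
    exact_mod_cast h1.le
  · intro x hx y hy hne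
    have h1 := (Finset.mem_filter.1 hx).2
    have h2 := (Finset.mem_filter.1 hy).2
    apply gap_of_dvd hne
    have h3 : ((p ^ 1 : ℕ) : ℤ) ∣ (Q : ℤ) * ((x : ℤ) - y) := by
      have e : (Q : ℤ) * ((x : ℤ) - y) = ((1 + Q * x : ℕ) : ℤ) - ((1 + Q * y : ℕ) : ℤ) := by
        push_cast; ring
      rw [e, pow_one]
      exact dvd_sub (Int.natCast_dvd_natCast.2 h1) (Int.natCast_dvd_natCast.2 h2)
    have h4 := cop_cancel hp hQp h3
    rwa [pow_one] at h4

/-- primes in `(W, X]` -/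
def Pr (W X : ℕ) : Finset ℕ := (Ioc W X).filter Nat.Prime

theorem mem_Pr {W X p : ℕ} : p ∈ Pr W X ↔ (W < p ∧ p ≤ X) ∧ p.Prime := by
  unfold Pr
  rw [Finset.mem_filter, Finset.mem_Ioc]

theorem Pr_card (W X : ℕ) : ((Pr W X).card : ℝ) ≤ Nat.primeCounting X := by
  have : (Pr W X).card ≤ Nat.primeCounting X := by
    rw [Nat.primeCounting, Nat.primeCounting', Nat.count_eq_card_filter_range]
    apply Finset.card_le_card
    intro p hp
    rw [mem_Pr] at hp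
    exact Finset.mem_filter.2 ⟨Finset.mem_range.2 (by omega), hp.2⟩
  exact_mod_cast this

theorem Pr_sq (W X : ℕ) (hW : 1 ≤ W) : ∑ p ∈ Pr W X, 1 / ((p : ℝ) ^ 2) ≤ 1 / (W : ℝ) := by
  have hW' : (0 : ℝ) < W := by exact_mod_cast hW
  calc ∑ p ∈ Pr W X, 1 / ((p : ℝ) ^ 2) ≤ ∑ p ∈ Ioc W X, 1 / ((p : ℝ) ^ 2) := by
        apply Finset.sum_le_sum_of_subset_of_nonneg (Finset.filter_subset _ _)
        intro _ _ _; positivity
    _ ≤ 1 / (W : ℝ) := by
        rcases le_or_gt W X with h | h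
        · have h3 := sum_Ioc_inv_sq_le_sub (α := ℝ) (k := W) (n := X) (by omega) h
          have h4 : (0 : ℝ) ≤ (X : ℝ)⁻¹ := by positivity
          simp_rw [one_div]
          linarith
        · rw [Finset.Ioc_eq_empty (by omega), Finset.sum_empty]
          positivity

theorem Pr_inv (W X : ℕ) (hW : 1 ≤ W) : ∑ p ∈ Pr W X, 1 / (p : ℝ) ≤ 1 + Real.log X := by
  rcases Nat.eq_zero_or_pos X with h0 | h0
  · have : Pr W X = ∅ := by
      rw [Finset.eq_empty_iff_forall_notMem]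
      intro p hp
      rw [mem_Pr] at hp
      omega
    rw [this, Finset.sum_empty, h0]
    simp
  · calc ∑ p ∈ Pr W X, 1 / (p : ℝ) ≤ ∑ p ∈ Icc 1 X, 1 / (p : ℝ) := by
          apply Finset.sum_le_sum_of_subset_of_nonneg
          · intro p hp
            rw [mem_Pr] at hp
            rw [Finset.mem_Icc]; omega
          · intro _ _ _; positivity
      _ = ((harmonic X : ℚ) : ℝ) := by
          rw [harmonic_eq_sum_Icc]
          push_cast
          exact Finset.sum_congr rfl fun _ _ => by rw [one_div]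
      _ ≤ _ := harmonic_le_one_add_log X

end Pool.Agent.TH562.TW
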