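import Mathlib
import Pool.Agent.TH562.TW.Count

/-! The number of bad pairs in the strip. -/

set_option autoImplicit false

namespace Pool.Agent.TH562.TW

open Finset

/-- good pairs -/
def GoodT (A B : ℤ) (m Q a W : ℕ) (x : ℕ × ℕ) : Prop :=
  Nat.Coprime (1 + Q * x.1) (a + Q * x.2) ∧ ∀ p : ℕ, p.Prime → W < p →
    ¬ p ^ 2 ∣ a + Q * x.2 ∧ ¬ ((p ^ 2 : ℕ) : ℤ) ∣ GZ A B m (1 + Q * x.1) (a + Q * x.2)

open Classical in
theorem bad_count {A B : ℤ} {m Q a W : ℕ} {ρ : ℝ} (hρ : 0 < ρ) (hQ : 0 < Q) (hW : 1 ≤ W)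
    (hQW : ∀ p : ℕ, p.Prime → W < p → ¬ p ∣ Q)
    (hQW' : ∀ p : ℕ, p.Prime → p ≤ W → p ∣ Q)
    (hdisc : ∀ p : ℕ, p.Prime → W < p → ¬ (p : ℤ) ∣ 4 * A ^ 3 + 27 * B ^ 2)
    {I L K I1 S X2 X4 : ℕ} (hS : ∀ i < I, 1 + Q * i ≤ S) (hK : 1 ≤ K) (hWK : W ≤ K) (hI1 : 1 ≤ I1)
    (hX2 : ∀ x ∈ Reg ρ Q a I L K, a + Q * x.2 < (X2 + 1) ^ 2) (hapos : 0 < a)
    (hX4 : ∀ x ∈ Reg ρ Q a I L K, I1 ≤ x.1 → 0 < GZ A B m (1 + Q * x.1) (a + Q * x.2) ∧
      GZ A B m (1 + Q * x.1) (a + Q * x.2) < ((X4 + 1) ^ 2 : ℕ)) :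
    (((Reg ρ Q a I L K).filter fun x => ¬ GoodT A B m Q a W x).card : ℝ) ≤
      I1 * (K + 1) +
      ((I : ℝ) * K / W + ((I : ℝ) + K) * (1 + Real.log S) + S) +
      ((I : ℝ) * K / W + I * Nat.primeCounting X2) +
      3 * ((L : ℝ) * K / ρ / W + L * Nat.primeCounting K) +
      3 * ((K : ℝ) * S ^ 2 / (I1 * K) + Nat.primeCounting X4) := by
  have hW' : (0 : ℝ) < W := by exact_mod_cast hW
  have hQ' : (0 : ℝ) < Q := by exact_mod_cast hQ
  have hK' : (0 : ℝ) < K := by exact_mod_cast hK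
  have hI1' : (0 : ℝ) < I1 := by exact_mod_cast hI1
  set R := Reg ρ Q a I L K with hR
  set B0 := R.filter fun x => x.1 < I1 with hB0
  set T1 : ℕ → Finset (ℕ × ℕ) := fun p => R.filter fun x => p ∣ 1 + Q * x.1 ∧ p ∣ a + Q * x.2
    with hT1
  set T2 : ℕ → Finset (ℕ × ℕ) := fun p => R.filter fun x => p ^ 2 ∣ a + Q * x.2 with hT2
  set T3 : ℕ → Finset (ℕ × ℕ) := fun p => R.filter fun x =>
    Nat.Coprime (1 + Q * x.1) (a + Q * x.2) ∧
      ((p ^ 2 : ℕ) : ℤ) ∣ GZ A B m (1 + Q * x.1) (a + Q * x.2) with hT3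
  set T4 : ℕ → Finset (ℕ × ℕ) := fun p => R.filter fun x => I1 ≤ x.1 ∧
    Nat.Coprime (1 + Q * x.1) (a + Q * x.2) ∧
      ((p ^ 2 : ℕ) : ℤ) ∣ GZ A B m (1 + Q * x.1) (a + Q * x.2) with hT4
  -- membership
  have hsub : (R.filter fun x => ¬ GoodT A B m Q a W x) ⊆
      (((B0 ∪ (Pr W S).biUnion T1) ∪ (Pr W X2).biUnion T2) ∪ (Pr W K).biUnion T3) ∪
        (Pr K X4).biUnion T4 := by
    intro x hx
    obtain ⟨hxR, hbad⟩ := Finset.mem_filter.1 hx
    obtain ⟨⟨hxI, hxL⟩, _⟩ := mem_Reg.1 hxR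
    by_cases h0 : x.1 < I1
    · exact Finset.mem_union_left _ (Finset.mem_union_left _ (Finset.mem_union_left _
        (Finset.mem_union_left _ (Finset.mem_filter.2 ⟨hxR, h0⟩))))
    push Not at h0
    by_cases hcop : Nat.Coprime (1 + Q * x.1) (a + Q * x.2)
    · unfold GoodT at hbad
      push Not at hbad
      obtain ⟨p, hp, hpW, hpd⟩ := hbad hcop
      by_cases hpv : p ^ 2 ∣ a + Q * x.2
      · refine Finset.mem_union_left _ (Finset.mem_union_left _ (Finset.mem_union_right _ ?_))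
        refine Finset.mem_biUnion.2 ⟨p, mem_Pr.2 ⟨⟨hpW, ?_⟩, hp⟩, Finset.mem_filter.2 ⟨hxR, hpv⟩⟩
        have h1 := Nat.le_of_dvd (by omega) hpv
        have h2 := hX2 x hxR
        have h3 : p ^ 2 < (X2 + 1) ^ 2 := by omega
        have h4 : p < X2 + 1 := lt_of_pow_lt_pow_left₀ 2 (by omega) h3
        omega
      · have hpG := hpd hpv
        rcases le_or_gt p K with hpK | hpK
        · refine Finset.mem_union_left _ (Finset.mem_union_right _ ?_)
          exact Finset.mem_biUnion.2 ⟨p, mem_Pr.2 ⟨⟨hpW, hpK⟩, hp⟩,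
            Finset.mem_filter.2 ⟨hxR, hcop, hpG⟩⟩
        · refine Finset.mem_union_right _ ?_
          refine Finset.mem_biUnion.2 ⟨p, mem_Pr.2 ⟨⟨hpK, ?_⟩, hp⟩,
            Finset.mem_filter.2 ⟨hxR, h0, hcop, hpG⟩⟩
          obtain ⟨h1, h2⟩ := hX4 x hxR h0
          have h3 := Int.le_of_dvd h1 hpG
          have h4 : ((p ^ 2 : ℕ) : ℤ) < ((X4 + 1) ^ 2 : ℕ) := lt_of_le_of_lt h3 h2
          have h5 : p ^ 2 < (X4 + 1) ^ 2 := by exact_mod_cast h4
          have h6 : p < X4 + 1 := lt_of_pow_lt_pow_left₀ 2 (by omega) h5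
          omega
    · refine Finset.mem_union_left _ (Finset.mem_union_left _ (Finset.mem_union_left _
        (Finset.mem_union_right _ ?_)))
      obtain ⟨p, hp, h1, h2⟩ := Nat.Prime.not_coprime_iff_dvd.1 hcop
      have hpW : W < p := by
        by_contra hcon
        push Not at hcon
        have h3 := hQW' p hp hcon
        have h4 : p ∣ 1 := (Nat.dvd_add_left (Dvd.dvd.mul_right h3 x.1)).1 h1
        exact hp.one_lt.ne' (Nat.dvd_one.1 h4)
      refine Finset.mem_biUnion.2 ⟨p, mem_Pr.2 ⟨⟨hpW, ?_⟩, hp⟩, Finset.mem_filter.2 ⟨hxR, h1, h2⟩⟩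
      exact (Nat.le_of_dvd (by omega) h1).trans (hS x.1 hxI)
  -- the five bounds
  have c0 : (B0.card : ℝ) ≤ I1 * (K + 1) := by
    have h := rows_card (ρ := ρ) (Q := Q) (a := a) (I := I) (L := L) (K := K) hQ (d := 1)
      (by norm_num) (T := B0) (Finset.filter_subset _ _) (F := range I1)
      (fun x hx => Finset.mem_range.2 (Finset.mem_filter.1 hx).2)
      (fun x _ y _ _ => by simp)
    rw [Finset.card_range] at h
    simpa using h
  have bi : ∀ (F : Finset ℕ) (T : ℕ → Finset (ℕ × ℕ)) (b : ℕ → ℝ),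
      (∀ p ∈ F, ((T p).card : ℝ) ≤ b p) → ((F.biUnion T).card : ℝ) ≤ ∑ p ∈ F, b p := by
    intro F T b hb
    have h1 : ((F.biUnion T).card : ℝ) ≤ ∑ p ∈ F, ((T p).card : ℝ) := by
      exact_mod_cast (Finset.card_biUnion_le : (F.biUnion T).card ≤ ∑ p ∈ F, (T p).card)
    exact h1.trans (Finset.sum_le_sum hb)
  have hpp : ∀ {w X p : ℕ}, p ∈ Pr w X → 0 < (p : ℝ) := by
    intro w X p hp
    have := (mem_Pr.1 hp).2.pos
    exact_mod_cast this
  have c1 : (((Pr W S).biUnion T1).card : ℝ) ≤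
      (I : ℝ) * K / W + ((I : ℝ) + K) * (1 + Real.log S) + S := by
    refine (bi _ _ (fun p => ((I : ℝ) / p + 1) * ((K : ℝ) / p + 1)) ?_).trans ?_
    · intro p hp
      obtain ⟨⟨hpW, _⟩, hpp'⟩ := mem_Pr.1 hp
      have hpQ := hQW p hpp' hpW
      have h := rows_card (ρ := ρ) (Q := Q) (a := a) (I := I) (L := L) (K := K) hQ (d := p)
        hpp'.pos (T := T1 p) (Finset.filter_subset _ _)
        (F := (range I).filter fun i => p ∣ 1 + Q * i)
        (fun x hx => by
          obtain ⟨h1, h2, _⟩ := Finset.mem_filter.1 hx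
          exact Finset.mem_filter.2 ⟨Finset.mem_range.2 (mem_Reg.1 h1).1.1, h2⟩)
        (fun x hx y hy _ => by
          have h1 := (Finset.mem_filter.1 hx).2.2
          have h2 := (Finset.mem_filter.1 hy).2.2
          have h3 : ((p ^ 1 : ℕ) : ℤ) ∣ (Q : ℤ) * ((x.2 : ℤ) - y.2) := by
            have e : (Q : ℤ) * ((x.2 : ℤ) - y.2) =
                ((a + Q * x.2 : ℕ) : ℤ) - ((a + Q * y.2 : ℕ) : ℤ) := by push_cast; ring
            rw [e, pow_one]
            exact dvd_sub (Int.natCast_dvd_natCast.2 h1) (Int.natCast_dvd_natCast.2 h2)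
          have h4 := cop_cancel hpp' hpQ h3
          rwa [pow_one] at h4)
      refine h.trans ?_
      exact mul_le_mul_of_nonneg_right (card_s hpp' hpQ I) (by positivity)
    · have e : ∑ p ∈ Pr W S, ((I : ℝ) / p + 1) * ((K : ℝ) / p + 1) =
          (I : ℝ) * K * ∑ p ∈ Pr W S, 1 / ((p : ℝ) ^ 2) +
          ((I : ℝ) + K) * ∑ p ∈ Pr W S, 1 / (p : ℝ) + (Pr W S).card := by
        have : ((Pr W S).card : ℝ) = ∑ p ∈ Pr W S, (1 : ℝ) := by
          rw [Finset.sum_const, nsmul_eq_mul, mul_one]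
        rw [this, Finset.mul_sum, Finset.mul_sum, ← Finset.sum_add_distrib,
          ← Finset.sum_add_distrib]
        refine Finset.sum_congr rfl fun p hp => ?_
        have := hpp hp
        field_simp
        ring
      rw [e]
      have h1 := mul_le_mul_of_nonneg_left (Pr_sq W S hW) (by positivity : (0 : ℝ) ≤ (I : ℝ) * K)
      have h2 := mul_le_mul_of_nonneg_left (Pr_inv W S hW) (by positivity : (0 : ℝ) ≤ (I : ℝ) + K)
      have h3 : ((Pr W S).card : ℝ) ≤ S := by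
        have : (Pr W S).card ≤ S := by
          calc (Pr W S).card ≤ (Ioc W S).card := Finset.card_filter_le _ _
            _ = S - W := Nat.card_Ioc _ _
            _ ≤ S := Nat.sub_le _ _
        exact_mod_cast this
      have h4 : (I : ℝ) * K * (1 / W) = (I : ℝ) * K / W := by ring
      linarith
  have c2 : (((Pr W X2).biUnion T2).card : ℝ) ≤
      (I : ℝ) * K / W + I * Nat.primeCounting X2 := by
    refine (bi _ _ (fun p => (I : ℝ) * ((K : ℝ) / (p : ℝ) ^ 2 + 1)) ?_).trans ?_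
    · intro p hp
      obtain ⟨⟨hpW, _⟩, hpp'⟩ := mem_Pr.1 hp
      have hpQ := hQW p hpp' hpW
      have h := rows_card (ρ := ρ) (Q := Q) (a := a) (I := I) (L := L) (K := K) hQ (d := p ^ 2)
        (pow_pos hpp'.pos 2) (T := T2 p) (Finset.filter_subset _ _)
        (F := range I)
        (fun x hx => Finset.mem_range.2 (mem_Reg.1 (Finset.mem_filter.1 hx).1).1.1)
        (fun x hx y hy _ => by
          have h1 := (Finset.mem_filter.1 hx).2
          have h2 := (Finset.mem_filter.1 hy).2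
          have h3 : ((p ^ 2 : ℕ) : ℤ) ∣ (Q : ℤ) * ((x.2 : ℤ) - y.2) := by
            have e : (Q : ℤ) * ((x.2 : ℤ) - y.2) =
                ((a + Q * x.2 : ℕ) : ℤ) - ((a + Q * y.2 : ℕ) : ℤ) := by push_cast; ring
            rw [e]
            exact dvd_sub (Int.natCast_dvd_natCast.2 h1) (Int.natCast_dvd_natCast.2 h2)
          exact cop_cancel hpp' hpQ h3)
      rw [Finset.card_range] at h
      push_cast at h
      exact h
    · have e : ∑ p ∈ Pr W X2, (I : ℝ) * ((K : ℝ) / (p : ℝ) ^ 2 + 1) =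
          (I : ℝ) * K * ∑ p ∈ Pr W X2, 1 / ((p : ℝ) ^ 2) + I * (Pr W X2).card := by
        have : (I : ℝ) * ((Pr W X2).card : ℝ) = ∑ p ∈ Pr W X2, (I : ℝ) := by
          rw [Finset.sum_const, nsmul_eq_mul]; ring
        rw [this, Finset.mul_sum, ← Finset.sum_add_distrib]
        refine Finset.sum_congr rfl fun p hp => ?_
        ring
      rw [e]
      have h1 := mul_le_mul_of_nonneg_left (Pr_sq W X2 hW) (by positivity : (0 : ℝ) ≤ (I : ℝ) * K)
      have h2 := mul_le_mul_of_nonneg_left (Pr_card W X2) (Nat.cast_nonneg (α := ℝ) I)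
      have h4 : (I : ℝ) * K * (1 / W) = (I : ℝ) * K / W := by ring
      linarith
  have hvp : ∀ {x : ℕ × ℕ} {p : ℕ}, p.Prime → Nat.Coprime (1 + Q * x.1) (a + Q * x.2) →
      ¬ p ∣ Q → ((p ^ 2 : ℕ) : ℤ) ∣ GZ A B m (1 + Q * x.1) (a + Q * x.2) → ¬ p ∣ a + Q * x.2 := by
    intro x p hp hcop _ hG hv
    have hp1 : (p : ℤ) ∣ GZ A B m (1 + Q * x.1) (a + Q * x.2) := by
      refine dvd_trans ?_ hG
      push_cast
      exact dvd_pow_self _ two_ne_zero
    have hvZ : (p : ℤ) ∣ ((a + Q * x.2 : ℕ) : ℤ) := Int.natCast_dvd_natCast.2 hv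
    unfold GZ at hp1
    have h1 : (p : ℤ) ∣ (((1 + Q * x.1 : ℕ) : ℤ)) ^ 3 := by
      have e : (((1 + Q * x.1 : ℕ) : ℤ)) ^ 3 =
        ((((1 + Q * x.1 : ℕ) : ℤ) - m * ((a + Q * x.2 : ℕ) : ℤ)) ^ 3 +
          A * (((1 + Q * x.1 : ℕ) : ℤ) - m * ((a + Q * x.2 : ℕ) : ℤ)) *
            ((a + Q * x.2 : ℕ) : ℤ) ^ 2 + B * ((a + Q * x.2 : ℕ) : ℤ) ^ 3) -
        ((a + Q * x.2 : ℕ) : ℤ) * (-3 * (((1 + Q * x.1 : ℕ) : ℤ)) ^ 2 * m +
          3 * (((1 + Q * x.1 : ℕ) : ℤ)) * m ^ 2 * ((a + Q * x.2 : ℕ) : ℤ) -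
          m ^ 3 * ((a + Q * x.2 : ℕ) : ℤ) ^ 2 +
          A * (((1 + Q * x.1 : ℕ) : ℤ) - m * ((a + Q * x.2 : ℕ) : ℤ)) *
            ((a + Q * x.2 : ℕ) : ℤ) + B * ((a + Q * x.2 : ℕ) : ℤ) ^ 2) := by ring
      rw [e]
      exact dvd_sub hp1 (Dvd.dvd.mul_right hvZ _)
    have h2 : (p : ℤ) ∣ ((1 + Q * x.1 : ℕ) : ℤ) := (Nat.prime_iff_prime_int.1 hp).dvd_of_dvd_pow h1
    have h3 : p ∣ 1 + Q * x.1 := Int.natCast_dvd_natCast.1 h2
    exact hp.one_lt.ne' (Nat.Coprime.eq_one_of_dvd (hcop.coprime_dvd_left h3) hv)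
  have c3 : (((Pr W K).biUnion T3).card : ℝ) ≤
      3 * ((L : ℝ) * K / ρ / W + L * Nat.primeCounting K) := by
    refine (bi _ _ (fun p => 3 * ((L : ℝ) * ((K : ℝ) / ρ / (p : ℝ) ^ 2 + 1))) ?_).trans ?_
    · intro p hp
      obtain ⟨⟨hpW, _⟩, hpp'⟩ := mem_Pr.1 hp
      have hpQ := hQW p hpp' hpW
      refine card_color hpp' (hdisc p hpp' hpW) (T3 p) (fun x => 1 + Q * x.1)
        (fun x => a + Q * x.2) (m := m) ?_ _ ?_
      · intro x hx
        obtain ⟨_, h1, h2⟩ := Finset.mem_filter.1 hx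
        exact ⟨h2, hvp hpp' h1 hpQ h2⟩
      · intro T' hT' hpair
        have h := cols_card (Q := Q) (a := a) (I := I) (L := L) (K := K) hρ hQ (d := p ^ 2)
          (pow_pos hpp'.pos 2) (T := T') (hT'.trans (Finset.filter_subset _ _))
          (fun x hx y hy hxy => by
            have h1 := hpair x hx y hy
            have hxm := Finset.mem_filter.1 (hT' hx)
            have hv := hvp hpp' hxm.2.1 hpQ hxm.2.2
            have h2 : ((p ^ 2 : ℕ) : ℤ) ∣ ((a + Q * x.2 : ℕ) : ℤ) * ((Q : ℤ) * ((x.1 : ℤ) - y.1)) := by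
              have e : ((a + Q * x.2 : ℕ) : ℤ) * ((Q : ℤ) * ((x.1 : ℤ) - y.1)) =
                ((1 + Q * x.1 : ℕ) : ℤ) * ((a + Q * y.2 : ℕ) : ℤ) -
                  ((1 + Q * y.1 : ℕ) : ℤ) * ((a + Q * x.2 : ℕ) : ℤ) := by
                rw [hxy]; push_cast; ring
              rw [e]; exact h1
            have h3 : ((p ^ 2 : ℕ) : ℤ) ∣ (Q : ℤ) * ((x.1 : ℤ) - y.1) := cop_cancel hpp' hv h2
            exact cop_cancel hpp' hpQ h3)
        push_cast at h
        exact h
    · have e : ∑ p ∈ Pr W K, 3 * ((L : ℝ) * ((K : ℝ) / ρ / (p : ℝ) ^ 2 + 1)) =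
          3 * ((L : ℝ) * K / ρ * ∑ p ∈ Pr W K, 1 / ((p : ℝ) ^ 2) + L * (Pr W K).card) := by
        have : (L : ℝ) * ((Pr W K).card : ℝ) = ∑ p ∈ Pr W K, (L : ℝ) := by
          rw [Finset.sum_const, nsmul_eq_mul]; ring
        rw [this, Finset.mul_sum, ← Finset.sum_add_distrib, Finset.mul_sum]
        refine Finset.sum_congr rfl fun p hp => ?_
        ring
      rw [e]
      have h1 := mul_le_mul_of_nonneg_left (Pr_sq W K hW)
        (by positivity : (0 : ℝ) ≤ (L : ℝ) * K / ρ)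
      have h2 := mul_le_mul_of_nonneg_left (Pr_card W K) (Nat.cast_nonneg (α := ℝ) L)
      have h4 : (L : ℝ) * K / ρ * (1 / W) = (L : ℝ) * K / ρ / W := by ring
      linarith
  have c4 : (((Pr K X4).biUnion T4).card : ℝ) ≤
      3 * ((K : ℝ) * S ^ 2 / (I1 * K) + Nat.primeCounting X4) := by
    refine (bi _ _ (fun p => 3 * ((K : ℝ) * S ^ 2 / I1 * (1 / (p : ℝ) ^ 2) + 1)) ?_).trans ?_
    · intro p hp
      obtain ⟨⟨hpK, _⟩, hpp'⟩ := mem_Pr.1 hp
      have hp0 : (0 : ℝ) < p := by exact_mod_cast hpp'.pos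
      -- we only need primes not dividing Q and the discriminant; small p give nothing new
      by_cases hpW : W < p
      · have hpQ := hQW p hpp' hpW
        refine card_color hpp' (hdisc p hpp' hpW) (T4 p) (fun x => 1 + Q * x.1)
          (fun x => a + Q * x.2) (m := m) ?_ _ ?_
        · intro x hx
          obtain ⟨_, _, h1, h2⟩ := Finset.mem_filter.1 hx
          exact ⟨h2, hvp hpp' h1 hpQ h2⟩
        · intro T' hT' hpair
          have hS0 : T'.Nonempty → 0 < S := by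
            rintro ⟨x, hx⟩
            have h1 := (mem_Reg.1 (Finset.mem_filter.1 (hT' hx)).1).1.1
            have := hS x.1 h1
            omega
          rcases T'.eq_empty_or_nonempty with he | hne
          · rw [he, Finset.card_empty]
            push_cast
            positivity
          have hSpos : (0 : ℝ) < S := by exact_mod_cast hS0 hne
          have h := card_spaced T' (fun x => ((a + Q * x.2 : ℕ) : ℝ) / ((1 + Q * x.1 : ℕ) : ℝ))
            (a := ρ) (L := (K : ℝ) / I1) (ε := (p : ℝ) ^ 2 / S ^ 2) (by positivity)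
            (by positivity) (by
              intro x hx
              obtain ⟨h1, h2, _, _⟩ := Finset.mem_filter.1 (hT' hx)
              obtain ⟨_, h3, h4⟩ := mem_Reg.1 h1
              have hs : (0 : ℝ) < ((1 + Q * x.1 : ℕ) : ℝ) := by positivity
              have hsI : (Q : ℝ) * I1 ≤ ((1 + Q * x.1 : ℕ) : ℝ) := by
                have : (I1 : ℝ) ≤ x.1 := by exact_mod_cast h2
                push_cast
                nlinarith
              constructor
              · rw [le_div_iff₀ hs]; exact h3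
              · rw [div_le_iff₀ hs]
                have h5 : (Q : ℝ) * K ≤ K / I1 * ((1 + Q * x.1 : ℕ) : ℝ) := by
                  rw [div_mul_eq_mul_div, le_div_iff₀ hI1']
                  have := mul_le_mul_of_nonneg_left hsI hK'.le
                  linarith
                linarith) (by
              intro x hx y hy hne
              obtain ⟨hx1, hx2, hx3, hx4⟩ := Finset.mem_filter.1 (hT' hx)
              obtain ⟨hy1, hy2, hy3, hy4⟩ := Finset.mem_filter.1 (hT' hy)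
              have hsx : (0 : ℝ) < ((1 + Q * x.1 : ℕ) : ℝ) := by positivity
              have hsy : (0 : ℝ) < ((1 + Q * y.1 : ℕ) : ℝ) := by positivity
              have hsxS : ((1 + Q * x.1 : ℕ) : ℝ) ≤ S := by
                exact_mod_cast hS x.1 (mem_Reg.1 hx1).1.1
              have hsyS : ((1 + Q * y.1 : ℕ) : ℝ) ≤ S := by
                exact_mod_cast hS y.1 (mem_Reg.1 hy1).1.1
              -- determinant
              have hdet := hpair x hx y hy
              have hdet0 : ((1 + Q * x.1 : ℕ) : ℤ) * ((a + Q * y.2 : ℕ) : ℤ) -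
                  ((1 + Q * y.1 : ℕ) : ℤ) * ((a + Q * x.2 : ℕ) : ℤ) ≠ 0 := by
                intro h0
                have h1 : (1 + Q * x.1) * (a + Q * y.2) = (1 + Q * y.1) * (a + Q * x.2) := by
                  exact_mod_cast sub_eq_zero.1 h0
                have h2 : (1 + Q * x.1) ∣ (1 + Q * y.1) :=
                  hx3.dvd_of_dvd_mul_right ⟨a + Q * y.2, h1.symm⟩
                have h3 : (1 + Q * y.1) ∣ (1 + Q * x.1) :=
                  hy3.dvd_of_dvd_mul_right ⟨a + Q * x.2, h1⟩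
                have h4 := Nat.dvd_antisymm h2 h3
                have h5 : a + Q * y.2 = a + Q * x.2 := by
                  rw [h4] at h1
                  exact Nat.eq_of_mul_eq_mul_left (by omega) h1
                have h6 : x.1 = y.1 := Nat.eq_of_mul_eq_mul_left hQ (by omega)
                have h7 : x.2 = y.2 := Nat.eq_of_mul_eq_mul_left hQ (by omega)
                exact hne (Prod.ext h6 h7)
              have hdetle : ((p : ℝ)) ^ 2 ≤ |((1 + Q * x.1 : ℕ) : ℝ) * ((a + Q * y.2 : ℕ) : ℝ) -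
                  ((1 + Q * y.1 : ℕ) : ℝ) * ((a + Q * x.2 : ℕ) : ℝ)| := by
                have h1 := Int.le_of_dvd (abs_pos.2 hdet0) ((dvd_abs _ _).2 hdet)
                have h2 : (((p ^ 2 : ℕ) : ℤ) : ℝ) ≤
                  ((|((1 + Q * x.1 : ℕ) : ℤ) * ((a + Q * y.2 : ℕ) : ℤ) -
                  ((1 + Q * y.1 : ℕ) : ℤ) * ((a + Q * x.2 : ℕ) : ℤ)| : ℤ) : ℝ) := by
                  exact_mod_cast h1
                push_cast at h2 ⊢
                exact h2
              have e : ((a + Q * x.2 : ℕ) : ℝ) / ((1 + Q * x.1 : ℕ) : ℝ) -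
                  ((a + Q * y.2 : ℕ) : ℝ) / ((1 + Q * y.1 : ℕ) : ℝ) =
                  -(((1 + Q * x.1 : ℕ) : ℝ) * ((a + Q * y.2 : ℕ) : ℝ) -
                  ((1 + Q * y.1 : ℕ) : ℝ) * ((a + Q * x.2 : ℕ) : ℝ)) /
                  (((1 + Q * x.1 : ℕ) : ℝ) * ((1 + Q * y.1 : ℕ) : ℝ)) := by
                rw [div_sub_div _ _ hsx.ne' hsy.ne']
                congr 1
                ring
              rw [e, abs_div, abs_neg, abs_of_pos (mul_pos hsx hsy)]
              apply div_le_div₀ (abs_nonneg _) hdetle (mul_pos hsx hsy)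
              rw [pow_two]
              exact mul_le_mul hsxS hsyS hsy.le hSpos.le)
          refine h.trans (le_of_eq ?_)
          field_simp
      · exact absurd (lt_of_le_of_lt hWK hpK) hpW
    · have e : ∑ p ∈ Pr K X4, 3 * ((K : ℝ) * S ^ 2 / I1 * (1 / (p : ℝ) ^ 2) + 1) =
          3 * ((K : ℝ) * S ^ 2 / I1 * ∑ p ∈ Pr K X4, 1 / ((p : ℝ) ^ 2) + (Pr K X4).card) := by
        have : ((Pr K X4).card : ℝ) = ∑ p ∈ Pr K X4, (1 : ℝ) := by
          rw [Finset.sum_const, nsmul_eq_mul, mul_one]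
        rw [this, Finset.mul_sum, ← Finset.sum_add_distrib, Finset.mul_sum]
      rw [e]
      have h1 := mul_le_mul_of_nonneg_left (Pr_sq K X4 hK)
        (by positivity : (0 : ℝ) ≤ (K : ℝ) * S ^ 2 / I1)
      have h2 := Pr_card K X4
      have h4 : (K : ℝ) * S ^ 2 / I1 * (1 / K) = (K : ℝ) * S ^ 2 / (I1 * K) := by
        field_simp
      linarith
  -- combination
  have hcard : ((R.filter fun x => ¬ GoodT A B m Q a W x).card : ℝ) ≤
      (B0.card : ℝ) + ((Pr W S).biUnion T1).card + ((Pr W X2).biUnion T2).card +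
        ((Pr W K).biUnion T3).card + ((Pr K X4).biUnion T4).card := by
    have h1 := Finset.card_le_card hsub
    have h2 := Finset.card_union_le
      (((B0 ∪ (Pr W S).biUnion T1) ∪ (Pr W X2).biUnion T2) ∪ (Pr W K).biUnion T3)
      ((Pr K X4).biUnion T4)
    have h3 := Finset.card_union_le
      ((B0 ∪ (Pr W S).biUnion T1) ∪ (Pr W X2).biUnion T2) ((Pr W K).biUnion T3)
    have h4 := Finset.card_union_le (B0 ∪ (Pr W S).biUnion T1) ((Pr W X2).biUnion T2)
    have h5 := Finset.card_union_le B0 ((Pr W S).biUnion T1)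
    have h6 : (R.filter fun x => ¬ GoodT A B m Q a W x).card ≤
      B0.card + ((Pr W S).biUnion T1).card + ((Pr W X2).biUnion T2).card +
        ((Pr W K).biUnion T3).card + ((Pr K X4).biUnion T4).card := by omega
    exact_mod_cast h6
  linarith

end Pool.Agent.TH562.TW
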