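import Mathlib

/-! A rational point of large height on a quadratic twist gives infinitely many rational points. -/

set_option autoImplicit false

namespace Pool.Agent.TH562.TW

/-- numerator and denominator of the duplication map -/
def FN (A B n m : ℤ) : ℤ := n ^ 4 - 2 * A * n ^ 2 * m ^ 2 - 8 * B * n * m ^ 3 + A ^ 2 * m ^ 4

def GN (A B n m : ℤ) : ℤ := 4 * m * (n ^ 3 + A * n * m ^ 2 + B * m ^ 3)

theorem id1 (A B n m : ℤ) :
    (12 * n ^ 2 * m + 16 * A * m ^ 3) * FN A B n m -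
      (3 * n ^ 3 - 5 * A * n * m ^ 2 - 27 * B * m ^ 3) * GN A B n m =
      4 * (4 * A ^ 3 + 27 * B ^ 2) * m ^ 7 := by
  unfold FN GN; ring

theorem id2 (A B n m : ℤ) :
    (4 * (4 * A ^ 3 + 27 * B ^ 2) * n ^ 3 - 4 * A ^ 2 * B * n ^ 2 * m +
      4 * A * (3 * A ^ 3 + 22 * B ^ 2) * n * m ^ 2 + 12 * B * (A ^ 3 + 8 * B ^ 2) * m ^ 3) *
      FN A B n m +
      (A ^ 2 * B * n ^ 3 + A * (5 * A ^ 3 + 32 * B ^ 2) * n ^ 2 * m +
      2 * B * (13 * A ^ 3 + 96 * B ^ 2) * n * m ^ 2 - 3 * A ^ 2 * (A ^ 3 + 8 * B ^ 2) * m ^ 3) *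
      GN A B n m = 4 * (4 * A ^ 3 + 27 * B ^ 2) * n ^ 7 := by
  unfold FN GN; ring

theorem big (A B : ℤ) (hΔ : 4 * A ^ 3 + 27 * B ^ 2 ≠ 0) : ∃ C : ℤ, 0 < C ∧ ∀ n m : ℤ,
    max |n| |m| ^ 4 ≤ C * max |FN A B n m| |GN A B n m| ∨ max |n| |m| = 0 := by
  set c1 : ℤ := 12 + 16 * |A| + (3 + 5 * |A| + 27 * |B|) with hc1
  set c2 : ℤ := (|4 * (4 * A ^ 3 + 27 * B ^ 2)| + |4 * A ^ 2 * B| +
      |4 * A * (3 * A ^ 3 + 22 * B ^ 2)| + |12 * B * (A ^ 3 + 8 * B ^ 2)|) +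
      (|A ^ 2 * B| + |A * (5 * A ^ 3 + 32 * B ^ 2)| + |2 * B * (13 * A ^ 3 + 96 * B ^ 2)| +
      |3 * A ^ 2 * (A ^ 3 + 8 * B ^ 2)|) with hc2
  have hc1' : 0 < c1 := by rw [hc1]; positivity
  have hc2' : 0 ≤ c2 := by rw [hc2]; positivity
  refine ⟨c1 + c2, by positivity, fun n m => ?_⟩
  rcases eq_or_ne (max |n| |m|) 0 with h0 | h0
  · exact Or.inr h0
  left
  set h := max |n| |m| with hh
  have hhpos : 0 < h := lt_of_le_of_ne (le_trans (abs_nonneg n) (le_max_left _ _)) (Ne.symm h0)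
  have hn : |n| ≤ h := le_max_left _ _
  have hm : |m| ≤ h := le_max_right _ _
  set X := max |FN A B n m| |GN A B n m| with hX
  have hF : |FN A B n m| ≤ X := le_max_left _ _
  have hG : |GN A B n m| ≤ X := le_max_right _ _
  have hX0 : 0 ≤ X := le_trans (abs_nonneg _) hF
  have hΔ1 : 1 ≤ |4 * (4 * A ^ 3 + 27 * B ^ 2)| := Int.one_le_abs (mul_ne_zero (by norm_num) hΔ)
  -- monomials
  have mon : ∀ (c : ℤ) (i j : ℕ), i + j = 3 → |c * n ^ i * m ^ j| ≤ |c| * h ^ 3 := by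
    intro c i j hij
    rw [abs_mul, abs_mul, abs_pow, abs_pow, mul_assoc, ← hij, pow_add]
    gcongr
  have m1 : |12 * n ^ 2 * m + 16 * A * m ^ 3| ≤ (12 + 16 * |A|) * h ^ 3 := by
    have a1 := mon 12 2 1 rfl
    have a2 := mon (16 * A) 0 3 rfl
    rw [pow_one] at a1
    rw [pow_zero, mul_one] at a2
    have a3 := abs_add_le (12 * n ^ 2 * m) (16 * A * m ^ 3)
    have a4 : |16 * A| = 16 * |A| := by rw [abs_mul]; rfl
    have a5 : |(12 : ℤ)| = 12 := rfl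
    rw [a4] at a2
    rw [a5] at a1
    linarith
  have m2 : |3 * n ^ 3 - 5 * A * n * m ^ 2 - 27 * B * m ^ 3| ≤
      (3 + 5 * |A| + 27 * |B|) * h ^ 3 := by
    have a1 := mon 3 3 0 rfl
    have a2 := mon (5 * A) 1 2 rfl
    have a3 := mon (27 * B) 0 3 rfl
    rw [pow_zero, mul_one] at a1 a3
    rw [pow_one] at a2
    have a4 : |5 * A| = 5 * |A| := by rw [abs_mul]; rfl
    have a5 : |27 * B| = 27 * |B| := by rw [abs_mul]; rfl
    have a6 : |(3 : ℤ)| = 3 := rfl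
    rw [a4] at a2
    rw [a5] at a3
    rw [a6] at a1
    have b1 := abs_sub (3 * n ^ 3 - 5 * A * n * m ^ 2) (27 * B * m ^ 3)
    have b2 := abs_sub (3 * n ^ 3) (5 * A * n * m ^ 2)
    linarith
  have m3 : |4 * (4 * A ^ 3 + 27 * B ^ 2) * n ^ 3 - 4 * A ^ 2 * B * n ^ 2 * m +
      4 * A * (3 * A ^ 3 + 22 * B ^ 2) * n * m ^ 2 + 12 * B * (A ^ 3 + 8 * B ^ 2) * m ^ 3| ≤
      (|4 * (4 * A ^ 3 + 27 * B ^ 2)| + |4 * A ^ 2 * B| +
      |4 * A * (3 * A ^ 3 + 22 * B ^ 2)| + |12 * B * (A ^ 3 + 8 * B ^ 2)|) * h ^ 3 := by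
    have a1 := mon (4 * (4 * A ^ 3 + 27 * B ^ 2)) 3 0 rfl
    have a2 := mon (4 * A ^ 2 * B) 2 1 rfl
    have a3 := mon (4 * A * (3 * A ^ 3 + 22 * B ^ 2)) 1 2 rfl
    have a4 := mon (12 * B * (A ^ 3 + 8 * B ^ 2)) 0 3 rfl
    rw [pow_zero, mul_one] at a1 a4
    rw [pow_one] at a2 a3
    have b1 := abs_add_le (4 * (4 * A ^ 3 + 27 * B ^ 2) * n ^ 3 - 4 * A ^ 2 * B * n ^ 2 * m +
      4 * A * (3 * A ^ 3 + 22 * B ^ 2) * n * m ^ 2) (12 * B * (A ^ 3 + 8 * B ^ 2) * m ^ 3)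
    have b2 := abs_add_le (4 * (4 * A ^ 3 + 27 * B ^ 2) * n ^ 3 - 4 * A ^ 2 * B * n ^ 2 * m)
      (4 * A * (3 * A ^ 3 + 22 * B ^ 2) * n * m ^ 2)
    have b3 := abs_sub (4 * (4 * A ^ 3 + 27 * B ^ 2) * n ^ 3) (4 * A ^ 2 * B * n ^ 2 * m)
    linarith
  have m4 : |A ^ 2 * B * n ^ 3 + A * (5 * A ^ 3 + 32 * B ^ 2) * n ^ 2 * m +
      2 * B * (13 * A ^ 3 + 96 * B ^ 2) * n * m ^ 2 - 3 * A ^ 2 * (A ^ 3 + 8 * B ^ 2) * m ^ 3| ≤
      (|A ^ 2 * B| + |A * (5 * A ^ 3 + 32 * B ^ 2)| + |2 * B * (13 * A ^ 3 + 96 * B ^ 2)| +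
      |3 * A ^ 2 * (A ^ 3 + 8 * B ^ 2)|) * h ^ 3 := by
    have a1 := mon (A ^ 2 * B) 3 0 rfl
    have a2 := mon (A * (5 * A ^ 3 + 32 * B ^ 2)) 2 1 rfl
    have a3 := mon (2 * B * (13 * A ^ 3 + 96 * B ^ 2)) 1 2 rfl
    have a4 := mon (3 * A ^ 2 * (A ^ 3 + 8 * B ^ 2)) 0 3 rfl
    rw [pow_zero, mul_one] at a1 a4
    rw [pow_one] at a2 a3
    have b1 := abs_sub (A ^ 2 * B * n ^ 3 + A * (5 * A ^ 3 + 32 * B ^ 2) * n ^ 2 * m +
      2 * B * (13 * A ^ 3 + 96 * B ^ 2) * n * m ^ 2) (3 * A ^ 2 * (A ^ 3 + 8 * B ^ 2) * m ^ 3)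
    have b2 := abs_add_le (A ^ 2 * B * n ^ 3 + A * (5 * A ^ 3 + 32 * B ^ 2) * n ^ 2 * m)
      (2 * B * (13 * A ^ 3 + 96 * B ^ 2) * n * m ^ 2)
    have b3 := abs_add_le (A ^ 2 * B * n ^ 3) (A * (5 * A ^ 3 + 32 * B ^ 2) * n ^ 2 * m)
    linarith
  have h3 : 0 < h ^ 3 := by positivity
  have i1 : |4 * (4 * A ^ 3 + 27 * B ^ 2)| * |m| ^ 7 ≤ c1 * h ^ 3 * X := by
    rw [← abs_pow, ← abs_mul, ← id1 A B n m]
    calc _ ≤ |(12 * n ^ 2 * m + 16 * A * m ^ 3) * FN A B n m| +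
        |(3 * n ^ 3 - 5 * A * n * m ^ 2 - 27 * B * m ^ 3) * GN A B n m| := abs_sub _ _
      _ ≤ (12 + 16 * |A|) * h ^ 3 * X + (3 + 5 * |A| + 27 * |B|) * h ^ 3 * X := by
        rw [abs_mul, abs_mul]
        gcongr
      _ = _ := by rw [hc1]; ring
  have i2 : |4 * (4 * A ^ 3 + 27 * B ^ 2)| * |n| ^ 7 ≤ c2 * h ^ 3 * X := by
    rw [← abs_pow, ← abs_mul, ← id2 A B n m]
    refine (abs_add_le _ _).trans ?_
    rw [abs_mul, abs_mul]
    refine (add_le_add (mul_le_mul m3 hF (abs_nonneg _) (by positivity))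
        (mul_le_mul m4 hG (abs_nonneg _) (by positivity))).trans (le_of_eq ?_)
    rw [hc2]; ring
  have i3 : |4 * (4 * A ^ 3 + 27 * B ^ 2)| * h ^ 7 ≤ (c1 + c2) * h ^ 3 * X := by
    have e1 : 0 ≤ c1 * h ^ 3 * X := by positivity
    have e2 : 0 ≤ c2 * h ^ 3 * X := by positivity
    have e3 : (c1 + c2) * h ^ 3 * X = c1 * h ^ 3 * X + c2 * h ^ 3 * X := by ring
    rcases max_choice |n| |m| with h' | h'
    · have h'' : h = |n| := h'
      calc |4 * (4 * A ^ 3 + 27 * B ^ 2)| * h ^ 7 = |4 * (4 * A ^ 3 + 27 * B ^ 2)| * |n| ^ 7 := by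
            rw [h'']
        _ ≤ (c1 + c2) * h ^ 3 * X := by linarith
    · have h'' : h = |m| := h'
      calc |4 * (4 * A ^ 3 + 27 * B ^ 2)| * h ^ 7 = |4 * (4 * A ^ 3 + 27 * B ^ 2)| * |m| ^ 7 := by
            rw [h'']
        _ ≤ (c1 + c2) * h ^ 3 * X := by linarith
  have i4 : h ^ 4 * h ^ 3 ≤ ((c1 + c2) * X) * h ^ 3 := by
    have : h ^ 7 ≤ |4 * (4 * A ^ 3 + 27 * B ^ 2)| * h ^ 7 := by
      have : 0 < h ^ 7 := by positivity
      nlinarith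
    calc h ^ 4 * h ^ 3 = h ^ 7 := by ring
      _ ≤ _ := this
      _ ≤ _ := i3
      _ = _ := by ring
  exact le_of_mul_le_mul_right i4 h3

theorem dvd_disc {A B n m k : ℤ} (hnm : IsCoprime n m) (h1 : k ∣ FN A B n m)
    (h2 : k ∣ GN A B n m) : k ∣ 4 * (4 * A ^ 3 + 27 * B ^ 2) := by
  have e1 : k ∣ 4 * (4 * A ^ 3 + 27 * B ^ 2) * m ^ 7 := by
    rw [← id1]; exact dvd_sub (Dvd.dvd.mul_left h1 _) (Dvd.dvd.mul_left h2 _)
  have e2 : k ∣ 4 * (4 * A ^ 3 + 27 * B ^ 2) * n ^ 7 := by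
    rw [← id2]; exact dvd_add (Dvd.dvd.mul_left h1 _) (Dvd.dvd.mul_left h2 _)
  obtain ⟨a, b, hab⟩ := (hnm.pow (m := 7) (n := 7) : IsCoprime (n ^ 7) (m ^ 7))
  have : 4 * (4 * A ^ 3 + 27 * B ^ 2) = a * (4 * (4 * A ^ 3 + 27 * B ^ 2) * n ^ 7) +
      b * (4 * (4 * A ^ 3 + 27 * B ^ 2) * m ^ 7) := by
    calc 4 * (4 * A ^ 3 + 27 * B ^ 2) = 4 * (4 * A ^ 3 + 27 * B ^ 2) * (a * n ^ 7 + b * m ^ 7) := by
          rw [hab, mul_one]
      _ = _ := by ring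
  rw [this]
  exact dvd_add (Dvd.dvd.mul_left e2 _) (Dvd.dvd.mul_left e1 _)

/-- height -/
def ht (q : ℚ) : ℤ := max |q.num| |(q.den : ℤ)|

theorem ht_pos (q : ℚ) : 0 < ht q := by
  unfold ht
  have : (0 : ℤ) < |(q.den : ℤ)| := abs_pos.2 (by exact_mod_cast q.den_nz)
  exact lt_of_lt_of_le this (le_max_right _ _)

theorem step (A B : ℤ) (hΔ : 4 * A ^ 3 + 27 * B ^ 2 ≠ 0) : ∃ H₀ : ℤ, ∀ (d x y : ℚ), d ≠ 0 →
    d * y ^ 2 = x ^ 3 + A * x + B → H₀ < ht x →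
    ∃ x' y' : ℚ, d * y' ^ 2 = x' ^ 3 + A * x' + B ∧ ht x < ht x' := by
  obtain ⟨C, hC, hbig⟩ := big A B hΔ
  refine ⟨C * |4 * (4 * A ^ 3 + 27 * B ^ 2)|, fun d x y hd hxy hx => ?_⟩
  set n := x.num with hn
  set m : ℤ := (x.den : ℤ) with hm
  have hm0 : (m : ℚ) ≠ 0 := by rw [hm]; exact_mod_cast x.den_nz
  have hxnm : x = n / m := by rw [hn, hm]; exact_mod_cast (Rat.num_div_den x).symm
  have hcop : IsCoprime n m := by
    rw [Int.isCoprime_iff_gcd_eq_one, hn, hm]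
    exact x.reduced
  have hΔ1 : 0 < |4 * (4 * A ^ 3 + 27 * B ^ 2)| := abs_pos.2 (mul_ne_zero (by norm_num) hΔ)
  have hh : ht x = max |n| |m| := rfl
  have hpos := ht_pos x
  have hb : ht x ^ 4 ≤ C * max |FN A B n m| |GN A B n m| := by
    rcases hbig n m with h | h
    · rw [hh]; exact h
    · rw [hh] at hpos; omega
  set f := x ^ 3 + A * x + B with hf
  have hfG : f = GN A B n m / (4 * m ^ 4) := by
    rw [hf, hxnm]; unfold GN; push_cast; field_simp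
  have hxF : x ^ 4 - 2 * A * x ^ 2 - 8 * B * x + A ^ 2 = FN A B n m / m ^ 4 := by
    rw [hxnm]; unfold FN; push_cast; field_simp
  -- f ≠ 0
  have hf0 : f ≠ 0 := by
    intro h0
    have hG0 : GN A B n m = 0 := by
      rw [hfG, div_eq_zero_iff] at h0
      rcases h0 with h | h
      · exact_mod_cast h
      · exfalso
        have : (4 : ℚ) * m ^ 4 ≠ 0 := by positivity
        exact this h
    have h1 : FN A B n m ∣ 4 * (4 * A ^ 3 + 27 * B ^ 2) :=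
      dvd_disc hcop (dvd_refl _) (by rw [hG0]; exact dvd_zero _)
    have h2 : |FN A B n m| ≤ |4 * (4 * A ^ 3 + 27 * B ^ 2)| := by
      apply Int.le_of_dvd hΔ1
      rwa [abs_dvd_abs]
    rw [hG0, abs_zero, max_eq_left (abs_nonneg _)] at hb
    have h3 : ht x ^ 4 ≤ C * |4 * (4 * A ^ 3 + 27 * B ^ 2)| :=
      hb.trans (mul_le_mul_of_nonneg_left h2 hC.le)
    have h4 : ht x ≤ ht x ^ 4 := le_self_pow₀ (by omega) (by norm_num)
    omega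
  have hy0 : y ≠ 0 := by
    rintro rfl
    apply hf0
    rw [← hxy]; ring
  have hG0 : (GN A B n m : ℚ) ≠ 0 := by
    intro h0
    apply hf0
    rw [hfG, h0, zero_div]
  set x' : ℚ := (x ^ 4 - 2 * A * x ^ 2 - 8 * B * x + A ^ 2) / (4 * f) with hx'
  have hx'FG : x' = FN A B n m / GN A B n m := by
    rw [hx', hxF, hfG]
    field_simp
  refine ⟨x', (x ^ 6 + 5 * A * x ^ 4 + 20 * B * x ^ 3 - 5 * A ^ 2 * x ^ 2 - 4 * A * B * x -
    8 * B ^ 2 - A ^ 3) / (8 * d ^ 2 * y ^ 3), ?_, ?_⟩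
  · have hy2 : y ^ 2 = f / d := by
      rw [eq_div_iff hd, ← hxy]; ring
    have hy6 : y ^ 6 = f ^ 3 / d ^ 3 := by
      calc y ^ 6 = (y ^ 2) ^ 3 := by ring
        _ = _ := by rw [hy2, div_pow]
    have e1 : d * ((x ^ 6 + 5 * A * x ^ 4 + 20 * B * x ^ 3 - 5 * A ^ 2 * x ^ 2 - 4 * A * B * x -
        8 * B ^ 2 - A ^ 3) / (8 * d ^ 2 * y ^ 3)) ^ 2 =
        (x ^ 6 + 5 * A * x ^ 4 + 20 * B * x ^ 3 - 5 * A ^ 2 * x ^ 2 - 4 * A * B * x -
        8 * B ^ 2 - A ^ 3) ^ 2 / (64 * f ^ 3) := by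
      have : (8 * d ^ 2 * y ^ 3) ^ 2 = 64 * d ^ 4 * y ^ 6 := by ring
      rw [div_pow, this, hy6]
      field_simp
    rw [e1, hx']
    field_simp
    rw [hf]
    ring
  · -- height
    set num' := x'.num with hnum
    set den' : ℤ := (x'.den : ℤ) with hden
    have hden0 : den' ≠ 0 := by rw [hden]; exact_mod_cast x'.den_nz
    have hcop' : IsCoprime den' num' := by
      rw [Int.isCoprime_iff_gcd_eq_one, hnum, hden, Int.gcd_comm]
      exact x'.reduced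
    have heq : FN A B n m * den' = GN A B n m * num' := by
      have h1 : x' = num' / den' := by rw [hnum, hden]; exact_mod_cast (Rat.num_div_den x').symm
      have h2 : (FN A B n m : ℚ) / GN A B n m = num' / den' := by rw [← hx'FG, h1]
      rw [div_eq_div_iff hG0 (by exact_mod_cast hden0)] at h2
      have h3 : ((FN A B n m * den' : ℤ) : ℚ) = ((GN A B n m * num' : ℤ) : ℚ) := by
        push_cast; linarith
      exact_mod_cast h3
    have hdvd : den' ∣ GN A B n m := by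
      apply hcop'.dvd_of_dvd_mul_right
      rw [← heq]
      exact dvd_mul_left _ _
    obtain ⟨k, hk⟩ := hdvd
    have hFk : FN A B n m = num' * k := by
      have h1 : FN A B n m * den' = (num' * k) * den' := by rw [heq, hk]; ring
      exact mul_right_cancel₀ hden0 h1
    have hk4 : k ∣ 4 * (4 * A ^ 3 + 27 * B ^ 2) :=
      dvd_disc hcop (by rw [hFk]; exact dvd_mul_left _ _) (by rw [hk]; exact dvd_mul_left _ _)
    have hkle : |k| ≤ |4 * (4 * A ^ 3 + 27 * B ^ 2)| := by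
      apply Int.le_of_dvd hΔ1
      rwa [abs_dvd_abs]
    have hmax : max |FN A B n m| |GN A B n m| = |k| * ht x' := by
      unfold ht
      rw [hFk, hk, abs_mul, abs_mul, mul_max_of_nonneg _ _ (abs_nonneg k)]
      rw [mul_comm |num'|, mul_comm |den'|]
    rw [hmax] at hb
    have h5 : ht x ^ 4 ≤ (C * |4 * (4 * A ^ 3 + 27 * B ^ 2)|) * ht x' := by
      refine hb.trans ?_
      rw [mul_assoc]
      apply mul_le_mul_of_nonneg_left _ hC.le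
      exact mul_le_mul_of_nonneg_right hkle (ht_pos x').le
    by_contra hcon
    push Not at hcon
    have h6 : (C * |4 * (4 * A ^ 3 + 27 * B ^ 2)|) * ht x' ≤
        (C * |4 * (4 * A ^ 3 + 27 * B ^ 2)|) * ht x :=
      mul_le_mul_of_nonneg_left hcon (by positivity)
    have h7 : (C * |4 * (4 * A ^ 3 + 27 * B ^ 2)|) * ht x < ht x * ht x :=
      mul_lt_mul_of_pos_right hx hpos
    have h8 : ht x * ht x ≤ ht x ^ 4 := by
      have : ht x ^ 4 = (ht x * ht x) * (ht x * ht x) := by ring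
      have h9 : 1 ≤ ht x * ht x := by nlinarith
      nlinarith
    omega

/-- a rational point of large height on `d y ^ 2 = x ^ 3 + A x + B` gives infinitely many
points of the twist -/
theorem infinite_points (A B : ℤ) (hΔ : 4 * A ^ 3 + 27 * B ^ 2 ≠ 0) : ∃ H₀ : ℤ,
    ∀ (d x y : ℚ), d ≠ 0 → d * y ^ 2 = x ^ 3 + A * x + B → H₀ < ht x →
    {p : ℚ × ℚ | p.2 ^ 2 = p.1 ^ 3 + A * d ^ 2 * p.1 + B * d ^ 3}.Infinite := by
  obtain ⟨H₀, hstep⟩ := step A B hΔ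
  refine ⟨H₀, fun d x y hd hxy hx hfin => ?_⟩
  set S : Set ℚ := {x | H₀ < ht x ∧ ∃ y : ℚ, d * y ^ 2 = x ^ 3 + A * x + B} with hS
  have hSfin : S.Finite := by
    refine (hfin.image fun p => p.1 / d).subset ?_
    rintro z ⟨_, w, hw⟩
    refine ⟨(d * z, d ^ 2 * w), ?_, ?_⟩
    · show (d ^ 2 * w) ^ 2 = (d * z) ^ 3 + A * d ^ 2 * (d * z) + B * d ^ 3
      calc (d ^ 2 * w) ^ 2 = d ^ 3 * (d * w ^ 2) := by ring
        _ = _ := by rw [hw]; ring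
    · show d * z / d = z
      field_simp
  have hSne : S.Nonempty := ⟨x, hx, y, hxy⟩
  obtain ⟨z, hz, hmax⟩ := Set.exists_max_image S ht hSfin hSne
  obtain ⟨hz1, w, hw⟩ := hz
  obtain ⟨x', y', h1, h2⟩ := hstep d z w hd hw hz1
  have := hmax x' ⟨by omega, y', h1⟩
  omega

end Pool.Agent.TH562.TW
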