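import Mathlib

/-! The quartic form near its critical line. -/

set_option autoImplicit false

namespace Pool.Agent.TH562.TW

/-- the real form `v ((s - m v)^3 + A (s - m v) v^2 + B v^3)` -/
def PR (A B m s v : ℝ) : ℝ := v * ((s - m * v) ^ 3 + A * (s - m * v) * v ^ 2 + B * v ^ 3)

theorem crit (A B : ℝ) (Q : ℕ) (hQ : 0 < Q) : ∃ m : ℕ, Q ∣ m ∧ 0 < m ∧
    ∃ ρ c κ lam μ : ℝ, 0 < ρ ∧ 0 < c ∧ 0 < κ ∧ ∀ s y : ℝ,
      PR A B m s (ρ * s + y) = c * s ^ 4 - κ * s ^ 2 * y ^ 2 + lam * s * y ^ 3 + μ * y ^ 4 := by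
  obtain ⟨k, hk⟩ := exists_nat_ge (100 * (|A| + |B| + 1))
  have hA0 := abs_nonneg A
  have hB0 := abs_nonneg B
  have hk100 : (100 : ℝ) ≤ k := by linarith
  have hkpos : 0 < k := by
    have : (0 : ℝ) < k := by linarith
    exact_mod_cast this
  set m : ℕ := Q * k with hm
  have hmpos : 0 < m := Nat.mul_pos hQ hkpos
  have hmk : (k : ℝ) ≤ m := by
    have : k ≤ m := Nat.le_mul_of_pos_left k hQ
    exact_mod_cast this
  have hm0 : (0 : ℝ) < m := by exact_mod_cast hmpos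
  refine ⟨m, Dvd.intro k rfl, hmpos, ?_⟩
  set α : ℝ := A / m ^ 2 with hα
  set β : ℝ := B / m ^ 3 with hβ
  have hAα : A = α * m ^ 2 := by rw [hα]; field_simp
  have hBβ : B = β * m ^ 3 := by rw [hβ]; field_simp
  have hα1 : |α| ≤ 1 / 100 := by
    rw [hα, abs_div, abs_of_pos (by positivity : (0 : ℝ) < m ^ 2), div_le_iff₀ (by positivity)]
    nlinarith
  have hβ1 : |β| ≤ 1 / 100 := by
    rw [hβ, abs_div, abs_of_pos (by positivity : (0 : ℝ) < m ^ 3), div_le_iff₀ (by positivity)]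
    have h1 : (m : ℝ) ≤ m ^ 3 := le_self_pow₀ (by linarith) (by norm_num)
    nlinarith
  rw [abs_le] at hα1 hβ1
  obtain ⟨ha1, ha2⟩ := hα1
  obtain ⟨hb1, hb2⟩ := hβ1
  set F : ℝ → ℝ := fun θ => 1 - 6 * θ + 3 * (3 + α) * θ ^ 2 + 4 * (-1 - α + β) * θ ^ 3 with hF
  have hcont : Continuous F := by rw [hF]; fun_prop
  have h1 : 0 ≤ F (1 / 8) := by rw [hF]; norm_num; linarith
  have h2 : F (3 / 8) ≤ 0 := by rw [hF]; norm_num; linarith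
  obtain ⟨θ, hθ, hθ0⟩ : ∃ θ ∈ Set.Icc (1 / 8 : ℝ) (3 / 8), F θ = 0 := by
    have := intermediate_value_Icc' (by norm_num : (1 / 8 : ℝ) ≤ 3 / 8) hcont.continuousOn
    exact this ⟨h2, h1⟩
  obtain ⟨hθ1, hθ2⟩ := hθ
  have hθpos : 0 < θ := by linarith
  have hθ2' : 0 ≤ θ ^ 2 := by positivity
  have hθ22 : θ ^ 2 ≤ 9 / 64 := by nlinarith
  have hθ32 : θ ^ 3 ≤ 27 / 512 := by
    have : θ ^ 3 ≤ (3 / 8) ^ 3 := pow_le_pow_left₀ hθpos.le hθ2 3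
    norm_num at this ⊢
    exact this
  have hθ3' : 0 ≤ θ ^ 3 := by positivity
  refine ⟨θ / m, (θ - 3 * θ ^ 2 + (3 + α) * θ ^ 3 + (-1 - α + β) * θ ^ 4) / m,
    -(m * (-3 + 3 * (3 + α) * θ + 6 * (-1 - α + β) * θ ^ 2)),
    m ^ 2 * (3 + α + 4 * (-1 - α + β) * θ), m ^ 3 * (-1 - α + β), by positivity, ?_, ?_, ?_⟩
  · apply div_pos _ hm0
    have e : θ - 3 * θ ^ 2 + (3 + α) * θ ^ 3 + (-1 - α + β) * θ ^ 4 =
        θ * ((1 - θ) ^ 3 + α * ((1 - θ) * θ ^ 2) + β * θ ^ 3) := by ring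
    rw [e]
    apply mul_pos hθpos
    have e1 : (1 / 8 : ℝ) ≤ (1 - θ) ^ 3 := by
      have : (1 / 2 : ℝ) ^ 3 ≤ (1 - θ) ^ 3 := pow_le_pow_left₀ (by norm_num) (by linarith) 3
      norm_num at this ⊢
      exact this
    have e2 : (1 - θ) * θ ^ 2 ≤ 1 := by nlinarith
    have e3 : 0 ≤ (1 - θ) * θ ^ 2 := mul_nonneg (by linarith) hθ2'
    have e4 : -(1 / 100) ≤ α * ((1 - θ) * θ ^ 2) := by nlinarith
    have e5 : -(1 / 100) ≤ β * θ ^ 3 := by nlinarith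
    linarith
  · have e : -3 + 3 * (3 + α) * θ + 6 * (-1 - α + β) * θ ^ 2 =
        -3 * ((1 - θ) * (1 - 2 * θ)) + α * (3 * θ - 6 * θ ^ 2) + β * (6 * θ ^ 2) := by ring
    have e1 : 5 / 32 ≤ (1 - θ) * (1 - 2 * θ) := by nlinarith
    have e2 : α * (3 * θ - 6 * θ ^ 2) ≤ 1 / 20 := by
      have h3 : 3 * θ - 6 * θ ^ 2 ≤ 2 := by nlinarith
      have h4 : 0 ≤ 3 * θ - 6 * θ ^ 2 := by nlinarith
      nlinarith
    have e3 : β * (6 * θ ^ 2) ≤ 1 / 20 := by nlinarith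
    have : m * (-3 + 3 * (3 + α) * θ + 6 * (-1 - α + β) * θ ^ 2) < 0 := by
      apply mul_neg_of_pos_of_neg hm0
      rw [e]; linarith
    linarith
  · intro s y
    have hF0 : 1 - 6 * θ + 3 * (3 + α) * θ ^ 2 + 4 * (-1 - α + β) * θ ^ 3 = 0 := hθ0
    unfold PR
    rw [hAα, hBβ]
    have hmρ : (m : ℝ) * (θ / m * s + y) = θ * s + m * y := by field_simp
    rw [hmρ]
    have hm0' : (m : ℝ) ≠ 0 := hm0.ne'
    field_simp
    linear_combination (s ^ 3 * m * y) * hF0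

end Pool.Agent.TH562.TW
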