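import Mathlib
import Pool.Agent.TH562.TW.Crit

/-! The values of the quartic form in the strip cover all large integers. -/

set_option autoImplicit false

namespace Pool.Agent.TH562.TW

section
variable {A B m ρ c κ lam μ η : ℝ}

theorem PR_upper (hP : ∀ s y, PR A B m s (ρ * s + y) =
      c * s ^ 4 - κ * s ^ 2 * y ^ 2 + lam * s * y ^ 3 + μ * y ^ 4)
    (h1 : 12 * |lam| * η ≤ κ) (h2 : 16 * |μ| * η ^ 2 ≤ κ) {s y : ℝ} (hs : 0 ≤ s) (hy : 0 ≤ y)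
    (hys : y ≤ η * s) : PR A B m s (ρ * s + y) ≤ c * s ^ 4 - κ / 2 * s ^ 2 * y ^ 2 := by
  rw [hP]
  have e1 : lam * s * y ^ 3 ≤ κ / 12 * (s ^ 2 * y ^ 2) := by
    calc lam * s * y ^ 3 ≤ |lam| * s * y ^ 3 := by
          have := le_abs_self lam
          gcongr
      _ = |lam| * (s * y ^ 2) * y := by ring
      _ ≤ |lam| * (s * y ^ 2) * (η * s) := by gcongr
      _ = (12 * |lam| * η) * (s ^ 2 * y ^ 2) / 12 := by ring
      _ ≤ κ * (s ^ 2 * y ^ 2) / 12 := by gcongr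
      _ = _ := by ring
  have e2 : μ * y ^ 4 ≤ κ / 16 * (s ^ 2 * y ^ 2) := by
    calc μ * y ^ 4 ≤ |μ| * y ^ 4 := by
          have := le_abs_self μ
          gcongr
      _ = |μ| * y ^ 2 * y ^ 2 := by ring
      _ ≤ |μ| * y ^ 2 * (η * s) ^ 2 := by gcongr
      _ = (16 * |μ| * η ^ 2) * (s ^ 2 * y ^ 2) / 16 := by ring
      _ ≤ κ * (s ^ 2 * y ^ 2) / 16 := by gcongr
      _ = _ := by ring
  have e3 : 0 ≤ s ^ 2 * y ^ 2 := by positivity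
  have hκ : 0 ≤ κ := le_trans (by positivity) h2
  have e4 : 0 ≤ κ * (s ^ 2 * y ^ 2) := mul_nonneg hκ e3
  have e5 : κ * s ^ 2 * y ^ 2 = κ * (s ^ 2 * y ^ 2) := by ring
  have e6 : κ / 2 * s ^ 2 * y ^ 2 = κ / 2 * (s ^ 2 * y ^ 2) := by ring
  linarith

theorem PR_lower (hP : ∀ s y, PR A B m s (ρ * s + y) =
      c * s ^ 4 - κ * s ^ 2 * y ^ 2 + lam * s * y ^ 3 + μ * y ^ 4)
    (h1 : 12 * |lam| * η ≤ κ) (h2 : 16 * |μ| * η ^ 2 ≤ κ) {s y : ℝ} (hs : 0 ≤ s) (hy : 0 ≤ y)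
    (hys : y ≤ η * s) : c * s ^ 4 - 2 * κ * s ^ 2 * y ^ 2 ≤ PR A B m s (ρ * s + y) := by
  rw [hP]
  have e1 : -(κ / 12 * (s ^ 2 * y ^ 2)) ≤ lam * s * y ^ 3 := by
    have : -lam * s * y ^ 3 ≤ κ / 12 * (s ^ 2 * y ^ 2) := by
      calc -lam * s * y ^ 3 ≤ |lam| * s * y ^ 3 := by
            have := neg_le_abs lam
            gcongr
        _ = |lam| * (s * y ^ 2) * y := by ring
        _ ≤ |lam| * (s * y ^ 2) * (η * s) := by gcongr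
        _ = (12 * |lam| * η) * (s ^ 2 * y ^ 2) / 12 := by ring
        _ ≤ κ * (s ^ 2 * y ^ 2) / 12 := by gcongr
        _ = _ := by ring
    linarith
  have e2 : -(κ / 16 * (s ^ 2 * y ^ 2)) ≤ μ * y ^ 4 := by
    have : -μ * y ^ 4 ≤ κ / 16 * (s ^ 2 * y ^ 2) := by
      calc -μ * y ^ 4 ≤ |μ| * y ^ 4 := by
            have := neg_le_abs μ
            gcongr
        _ = |μ| * y ^ 2 * y ^ 2 := by ring
        _ ≤ |μ| * y ^ 2 * (η * s) ^ 2 := by gcongr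
        _ = (16 * |μ| * η ^ 2) * (s ^ 2 * y ^ 2) / 16 := by ring
        _ ≤ κ * (s ^ 2 * y ^ 2) / 16 := by gcongr
        _ = _ := by ring
    linarith
  have e3 : 0 ≤ s ^ 2 * y ^ 2 := by positivity
  have hκ : 0 ≤ κ := le_trans (by positivity) h2
  have e4 : 0 ≤ κ * (s ^ 2 * y ^ 2) := mul_nonneg hκ e3
  have e5 : κ * s ^ 2 * y ^ 2 = κ * (s ^ 2 * y ^ 2) := by ring
  have e6 : 2 * κ * s ^ 2 * y ^ 2 = 2 * (κ * (s ^ 2 * y ^ 2)) := by ring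
  linarith

theorem PR_step (hP : ∀ s y, PR A B m s (ρ * s + y) =
      c * s ^ 4 - κ * s ^ 2 * y ^ 2 + lam * s * y ^ 3 + μ * y ^ 4)
    (h1 : 12 * |lam| * η ≤ κ) (h2 : 16 * |μ| * η ^ 2 ≤ κ) {s y q : ℝ} (hs : 0 ≤ s) (hy : 0 ≤ y)
    (hq : 0 ≤ q) (hys : y + q ≤ η * s) :
    PR A B m s (ρ * s + y) - PR A B m s (ρ * s + (y + q)) ≤ 2 * κ * s ^ 2 * q * (2 * y + q) := by
  rw [hP, hP]
  have hκ : 0 ≤ κ := le_trans (by positivity) h2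
  have e1 : -(lam * s * ((y + q) ^ 3 - y ^ 3)) ≤ κ / 4 * (s ^ 2 * q * (2 * y + q)) := by
    have h3 : (y + q) ^ 3 - y ^ 3 ≤ 3 * q * (y + q) ^ 2 := by
      have : 3 * q * (y + q) ^ 2 - ((y + q) ^ 3 - y ^ 3) = 3 * y * q ^ 2 + 2 * q ^ 3 := by ring
      have h4 : 0 ≤ 3 * y * q ^ 2 + 2 * q ^ 3 := by positivity
      linarith
    have h3' : 0 ≤ (y + q) ^ 3 - y ^ 3 := by
      have : (y + q) ^ 3 - y ^ 3 = 3 * y ^ 2 * q + 3 * y * q ^ 2 + q ^ 3 := by ring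
      rw [this]; positivity
    calc -(lam * s * ((y + q) ^ 3 - y ^ 3)) = -lam * (s * ((y + q) ^ 3 - y ^ 3)) := by ring
      _ ≤ |lam| * (s * ((y + q) ^ 3 - y ^ 3)) := by
          have := neg_le_abs lam
          gcongr
      _ ≤ |lam| * (s * (3 * q * (y + q) ^ 2)) := by gcongr
      _ = |lam| * (s * (3 * q * (y + q))) * (y + q) := by ring
      _ ≤ |lam| * (s * (3 * q * (y + q))) * (η * s) := by gcongr
      _ = (12 * |lam| * η) * (s ^ 2 * q * (y + q)) / 4 := by ring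
      _ ≤ κ * (s ^ 2 * q * (2 * y + q)) / 4 := by
          gcongr
          linarith
      _ = _ := by ring
  have e2 : -(μ * ((y + q) ^ 4 - y ^ 4)) ≤ κ / 4 * (s ^ 2 * q * (2 * y + q)) := by
    have h3 : (y + q) ^ 4 - y ^ 4 ≤ 4 * q * (y + q) ^ 3 := by
      have : 4 * q * (y + q) ^ 3 - ((y + q) ^ 4 - y ^ 4) =
        6 * y ^ 2 * q ^ 2 + 8 * y * q ^ 3 + 3 * q ^ 4 := by ring
      have h4 : 0 ≤ 6 * y ^ 2 * q ^ 2 + 8 * y * q ^ 3 + 3 * q ^ 4 := by positivity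
      linarith
    have h3' : 0 ≤ (y + q) ^ 4 - y ^ 4 := by
      have : (y + q) ^ 4 - y ^ 4 = 4 * y ^ 3 * q + 6 * y ^ 2 * q ^ 2 + 4 * y * q ^ 3 + q ^ 4 := by
        ring
      rw [this]; positivity
    calc -(μ * ((y + q) ^ 4 - y ^ 4)) = -μ * ((y + q) ^ 4 - y ^ 4) := by ring
      _ ≤ |μ| * ((y + q) ^ 4 - y ^ 4) := by
          have := neg_le_abs μ
          gcongr
      _ ≤ |μ| * (4 * q * (y + q) ^ 3) := by gcongr
      _ = |μ| * (4 * q * (y + q)) * (y + q) ^ 2 := by ring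
      _ ≤ |μ| * (4 * q * (y + q)) * (η * s) ^ 2 := by gcongr
      _ = (16 * |μ| * η ^ 2) * (s ^ 2 * q * (y + q)) / 4 := by ring
      _ ≤ κ * (s ^ 2 * q * (2 * y + q)) / 4 := by
          gcongr
          linarith
      _ = _ := by ring
  have e3 : 0 ≤ κ * (s ^ 2 * q * (2 * y + q)) := by positivity
  have e4 : c * s ^ 4 - κ * s ^ 2 * y ^ 2 + lam * s * y ^ 3 + μ * y ^ 4 -
      (c * s ^ 4 - κ * s ^ 2 * (y + q) ^ 2 + lam * s * (y + q) ^ 3 + μ * (y + q) ^ 4) =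
      κ * (s ^ 2 * q * (2 * y + q)) + -(lam * s * ((y + q) ^ 3 - y ^ 3)) +
      -(μ * ((y + q) ^ 4 - y ^ 4)) := by ring
  rw [e4]
  have e5 : 2 * κ * s ^ 2 * q * (2 * y + q) = 2 * (κ * (s ^ 2 * q * (2 * y + q))) := by ring
  linarith

end

/-- the integral form -/
def PZ (A B : ℤ) (m s v : ℕ) : ℤ :=
  v * (((s : ℤ) - m * v) ^ 3 + A * ((s : ℤ) - m * v) * (v : ℤ) ^ 2 + B * (v : ℤ) ^ 3)

theorem PZ_cast (A B : ℤ) (m s v : ℕ) : (PZ A B m s v : ℝ) = PR A B m s v := by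
  unfold PZ PR; push_cast; ring

/-- first index to the right of the critical line -/
noncomputable def L0 (ρ : ℝ) (Q a i : ℕ) : ℕ := ⌈(ρ * ((1 + Q * i : ℕ) : ℝ) - a) / Q⌉₊

theorem L0_spec {ρ : ℝ} {Q a i : ℕ} (hQ : 0 < Q) (h : (a : ℝ) ≤ ρ * ((1 + Q * i : ℕ) : ℝ)) :
    ρ * ((1 + Q * i : ℕ) : ℝ) ≤ ((a + Q * L0 ρ Q a i : ℕ) : ℝ) ∧
    ((a + Q * L0 ρ Q a i : ℕ) : ℝ) < ρ * ((1 + Q * i : ℕ) : ℝ) + Q := by
  have hQ' : (0 : ℝ) < Q := by exact_mod_cast hQ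
  have h1 : 0 ≤ (ρ * ((1 + Q * i : ℕ) : ℝ) - a) / Q := div_nonneg (by linarith) hQ'.le
  have h2 := Nat.le_ceil ((ρ * ((1 + Q * i : ℕ) : ℝ) - a) / Q)
  have h3 := Nat.ceil_lt_add_one h1
  have h4 : L0 ρ Q a i = ⌈(ρ * ((1 + Q * i : ℕ) : ℝ) - a) / Q⌉₊ := rfl
  rw [← h4] at h2 h3
  rw [div_le_iff₀ hQ'] at h2
  have h5 : ((L0 ρ Q a i : ℕ) : ℝ) * Q < (ρ * ((1 + Q * i : ℕ) : ℝ) - a) + Q := by
    have h6 : ((L0 ρ Q a i : ℕ) : ℝ) - 1 < (ρ * ((1 + Q * i : ℕ) : ℝ) - a) / Q := by linarith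
    rw [lt_div_iff₀ hQ'] at h6
    linarith
  have h6 : ((a + Q * L0 ρ Q a i : ℕ) : ℝ) = a + (L0 ρ Q a i : ℝ) * Q := by push_cast; ring
  rw [h6]
  constructor <;> linarith

theorem cover {A B : ℤ} {m Q a : ℕ} {ρ c κ lam μ η : ℝ}
    (hP : ∀ s y, PR A B m s (ρ * s + y) =
      c * s ^ 4 - κ * s ^ 2 * y ^ 2 + lam * s * y ^ 3 + μ * y ^ 4)
    (hκ : 0 < κ) (hc : 0 < c) (h1 : 12 * |lam| * η ≤ κ) (h2 : 16 * |μ| * η ^ 2 ≤ κ)
    (hQ : 0 < Q) (Kf : ℕ → ℕ) (i0 : ℕ)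
    (hi0 : ∀ i, i0 ≤ i → (a : ℝ) ≤ ρ * ((1 + Q * i : ℕ) : ℝ) ∧
      (Q : ℝ) * (Kf i + 2) ≤ η * ((1 + Q * i : ℕ) : ℝ) ∧
      4 * c * ((1 + Q * i : ℕ) : ℝ) + 2 * κ * Q ≤ κ / 2 * Q * (Kf i : ℝ) ^ 2)
    {x : ℤ} (hx : PZ A B m (1 + Q * i0) (a + Q * L0 ρ Q a i0) ≤ x) :
    ∃ i l : ℕ, i0 < i ∧ ρ * ((1 + Q * i : ℕ) : ℝ) ≤ ((a + Q * l : ℕ) : ℝ) ∧
      ((a + Q * l : ℕ) : ℝ) < ρ * ((1 + Q * i : ℕ) : ℝ) + Q * Kf i ∧
      PZ A B m (1 + Q * i) (a + Q * (l + 1)) ≤ x ∧ x < PZ A B m (1 + Q * i) (a + Q * l) ∧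
      c * (((1 + Q * i : ℕ) : ℝ) - Q) ^ 4 -
        2 * κ * (((1 + Q * i : ℕ) : ℝ) - Q) ^ 2 * (Q : ℝ) ^ 2 ≤ x := by
  have hQ' : (0 : ℝ) < Q := by exact_mod_cast hQ
  have hQ1 : (1 : ℝ) ≤ Q := by exact_mod_cast hQ
  -- lower bound at L0
  have low : ∀ i, i0 ≤ i → c * ((1 + Q * i : ℕ) : ℝ) ^ 4 -
      2 * κ * ((1 + Q * i : ℕ) : ℝ) ^ 2 * (Q : ℝ) ^ 2 ≤
      (PZ A B m (1 + Q * i) (a + Q * L0 ρ Q a i) : ℝ) := by
    intro i hi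
    obtain ⟨g1, g2, g3⟩ := hi0 i hi
    obtain ⟨g4, g5⟩ := L0_spec hQ g1
    rw [PZ_cast]
    set s : ℝ := ((1 + Q * i : ℕ) : ℝ) with hs
    set v : ℝ := ((a + Q * L0 ρ Q a i : ℕ) : ℝ) with hv
    have hs0 : 0 ≤ s := by rw [hs]; positivity
    have hvy : v = ρ * s + (v - ρ * s) := by ring
    rw [hvy]
    have hKf : (0 : ℝ) ≤ Kf i := Nat.cast_nonneg _
    have hl := PR_lower hP h1 h2 (s := s) (y := v - ρ * s) hs0 (by linarith) (by nlinarith)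
    refine le_trans ?_ hl
    have h5 : (v - ρ * s) ^ 2 ≤ (Q : ℝ) ^ 2 := pow_le_pow_left₀ (by linarith) (by linarith) 2
    have h6 : 2 * κ * s ^ 2 * (v - ρ * s) ^ 2 ≤ 2 * κ * s ^ 2 * (Q : ℝ) ^ 2 := by gcongr
    linarith
  -- existence
  have hex : ∃ i, i0 ≤ i ∧ x < PZ A B m (1 + Q * i) (a + Q * L0 ρ Q a i) := by
    obtain ⟨n, hn⟩ := exists_nat_ge ((2 * κ * (Q : ℝ) ^ 2 + 1) / c + |(x : ℝ)| + 1)
    refine ⟨i0 + n, by omega, ?_⟩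
    have h3 := low (i0 + n) (by omega)
    set s : ℝ := ((1 + Q * (i0 + n) : ℕ) : ℝ) with hs
    have hsn : (n : ℝ) + 1 ≤ s := by
      rw [hs]; push_cast
      have h0 : (0 : ℝ) ≤ i0 := Nat.cast_nonneg _
      have h0' : (0 : ℝ) ≤ n := Nat.cast_nonneg _
      nlinarith
    have hx0 := abs_nonneg (x : ℝ)
    have hpos : 0 ≤ (2 * κ * (Q : ℝ) ^ 2 + 1) / c := by positivity
    have hs1 : (2 * κ * (Q : ℝ) ^ 2 + 1) / c ≤ s := by linarith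
    have hs2 : |(x : ℝ)| + 1 ≤ s := by linarith
    rw [div_le_iff₀ hc] at hs1
    have hs3 : 1 ≤ s := by linarith
    have h4 : s ≤ c * s ^ 4 - 2 * κ * s ^ 2 * (Q : ℝ) ^ 2 := by
      have e : c * s ^ 4 - 2 * κ * s ^ 2 * (Q : ℝ) ^ 2 = s ^ 2 * (c * s ^ 2 - 2 * κ * (Q : ℝ) ^ 2) := by
        ring
      rw [e]
      have h5 : 1 ≤ c * s ^ 2 - 2 * κ * (Q : ℝ) ^ 2 := by
        have h7 : s * c ≤ s * c * s := le_mul_of_one_le_right (by positivity) hs3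
        have h8 : s * c * s = c * s ^ 2 := by ring
        linarith
      nlinarith
    have h6 : (x : ℝ) < (PZ A B m (1 + Q * (i0 + n)) (a + Q * L0 ρ Q a (i0 + n)) : ℝ) := by
      have := le_abs_self (x : ℝ)
      linarith
    exact_mod_cast h6
  classical
  obtain ⟨i, ⟨hi1, hi2⟩, hmin⟩ : ∃ i, (i0 ≤ i ∧ x < PZ A B m (1 + Q * i) (a + Q * L0 ρ Q a i)) ∧
      ∀ j < i, ¬ (i0 ≤ j ∧ x < PZ A B m (1 + Q * j) (a + Q * L0 ρ Q a j)) :=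
    ⟨Nat.find hex, Nat.find_spec hex, fun j hj => Nat.find_min hex hj⟩
  have hi3 : i0 < i := by
    rcases Nat.lt_or_ge i0 i with h | h
    · exact h
    · exfalso
      have : i = i0 := by omega
      subst this
      omega
  have hprev : PZ A B m (1 + Q * (i - 1)) (a + Q * L0 ρ Q a (i - 1)) ≤ x := by
    have := hmin (i - 1) (by omega)
    push Not at this
    exact this (by omega)
  obtain ⟨g1, g2, g3⟩ := hi0 i hi1
  obtain ⟨g4, g5⟩ := L0_spec hQ g1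
  have hlowp := low (i - 1) (by omega)
  have hsp : ((1 + Q * (i - 1) : ℕ) : ℝ) = ((1 + Q * i : ℕ) : ℝ) - Q := by
    obtain ⟨j, rfl⟩ : ∃ j, i = j + 1 := ⟨i - 1, by omega⟩
    simp only [Nat.add_sub_cancel]
    push_cast; ring
  rw [hsp] at hlowp
  have hxlow : c * (((1 + Q * i : ℕ) : ℝ) - Q) ^ 4 -
        2 * κ * (((1 + Q * i : ℕ) : ℝ) - Q) ^ 2 * (Q : ℝ) ^ 2 ≤ x := by
    refine hlowp.trans ?_
    exact_mod_cast hprev
  -- the end of the row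
  have hend : PZ A B m (1 + Q * i) (a + Q * (L0 ρ Q a i + Kf i)) ≤ x := by
    have h5 : (PZ A B m (1 + Q * i) (a + Q * (L0 ρ Q a i + Kf i)) : ℝ) ≤ x := by
      rw [PZ_cast]
      set s : ℝ := ((1 + Q * i : ℕ) : ℝ) with hs
      have hs1 : (Q : ℝ) ≤ s := by
        rw [hs]; push_cast
        have : (1 : ℝ) ≤ i := by
          have : 1 ≤ i := by omega
          exact_mod_cast this
        nlinarith
      have hs0 : 0 ≤ s := by linarith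
      have hv : ((a + Q * (L0 ρ Q a i + Kf i) : ℕ) : ℝ) =
          ρ * s + (((a + Q * L0 ρ Q a i : ℕ) : ℝ) - ρ * s + Q * Kf i) := by push_cast; ring
      rw [hv]
      set y := ((a + Q * L0 ρ Q a i : ℕ) : ℝ) - ρ * s + Q * Kf i with hy
      have hKf : (0 : ℝ) ≤ Kf i := Nat.cast_nonneg _
      have hQK : 0 ≤ (Q : ℝ) * Kf i := by positivity
      have hy1 : (Q : ℝ) * Kf i ≤ y := by rw [hy]; linarith
      have hy2 : y ≤ η * s := by rw [hy]; linarith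
      have hu := PR_upper hP h1 h2 (s := s) (y := y) hs0 (by linarith) hy2
      refine hu.trans (le_trans ?_ hxlow)
      have e1 : κ / 2 * s ^ 2 * (Q * Kf i) ^ 2 ≤ κ / 2 * s ^ 2 * y ^ 2 := by gcongr
      have e2 : c * s ^ 4 - c * (s - Q) ^ 4 ≤ 4 * c * Q * s ^ 3 := by
        have : 4 * Q * s ^ 3 - (s ^ 4 - (s - Q) ^ 4) = Q ^ 2 * (6 * s ^ 2 - 4 * s * Q + Q ^ 2) := by
          ring
        have h7 : 0 ≤ (Q : ℝ) ^ 2 * (6 * s ^ 2 - 4 * s * Q + Q ^ 2) := by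
          apply mul_nonneg (by positivity)
          nlinarith
        nlinarith
      have e3 : 2 * κ * (s - Q) ^ 2 * (Q : ℝ) ^ 2 ≤ 2 * κ * s ^ 2 * (Q : ℝ) ^ 2 := by
        have : (s - Q) ^ 2 ≤ s ^ 2 := pow_le_pow_left₀ (by linarith) (by linarith) 2
        gcongr
      have e4 : (4 * c * s + 2 * κ * Q) * (Q * s ^ 2) ≤ (κ / 2 * Q * (Kf i : ℝ) ^ 2) * (Q * s ^ 2) :=
        mul_le_mul_of_nonneg_right g3 (by positivity)
      have e5 : (κ / 2 * Q * (Kf i : ℝ) ^ 2) * (Q * s ^ 2) = κ / 2 * s ^ 2 * (Q * Kf i) ^ 2 := by ring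
      have e6 : (4 * c * s + 2 * κ * Q) * (Q * s ^ 2) =
        4 * c * Q * s ^ 3 + 2 * κ * s ^ 2 * (Q : ℝ) ^ 2 := by ring
      linarith
    exact_mod_cast h5
  -- discrete intermediate value
  have hex2 : ∃ k, PZ A B m (1 + Q * i) (a + Q * (L0 ρ Q a i + k)) ≤ x := ⟨Kf i, hend⟩
  obtain ⟨k, hk1, hk2⟩ : ∃ k, PZ A B m (1 + Q * i) (a + Q * (L0 ρ Q a i + k)) ≤ x ∧
      ∀ j < k, ¬ PZ A B m (1 + Q * i) (a + Q * (L0 ρ Q a i + j)) ≤ x :=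
    ⟨Nat.find hex2, Nat.find_spec hex2, fun j hj => Nat.find_min hex2 hj⟩
  have hkK : k ≤ Kf i := by
    by_contra hcon
    exact hk2 (Kf i) (by omega) hend
  have hk0 : 0 < k := by
    rcases Nat.eq_zero_or_pos k with h | h
    · exfalso
      rw [h, Nat.add_zero] at hk1
      omega
    · exact h
  have hk3 := hk2 (k - 1) (by omega)
  push Not at hk3
  refine ⟨i, L0 ρ Q a i + (k - 1), hi3, ?_, ?_, ?_, hk3, hxlow⟩
  · refine g4.trans ?_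
    have : a + Q * L0 ρ Q a i ≤ a + Q * (L0 ρ Q a i + (k - 1)) := by
      apply Nat.add_le_add_left
      apply Nat.mul_le_mul_left
      omega
    exact_mod_cast this
  · have h6 : ((a + Q * (L0 ρ Q a i + (k - 1)) : ℕ) : ℝ) =
        ((a + Q * L0 ρ Q a i : ℕ) : ℝ) + Q * ((k - 1 : ℕ) : ℝ) := by push_cast; ring
    have h7 : ((k - 1 : ℕ) : ℝ) ≤ (Kf i : ℝ) - 1 := by
      have : (k - 1) + 1 ≤ Kf i := by omega
      have h8 : ((k - 1 : ℕ) : ℝ) + 1 ≤ Kf i := by exact_mod_cast this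
      linarith
    rw [h6]
    have h8 : (Q : ℝ) * ((k - 1 : ℕ) : ℝ) ≤ Q * ((Kf i : ℝ) - 1) :=
      mul_le_mul_of_nonneg_left h7 hQ'.le
    linarith
  · have : L0 ρ Q a i + (k - 1) + 1 = L0 ρ Q a i + k := by omega
    rw [this]
    exact hk1

end Pool.Agent.TH562.TW
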