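import Mathlib
import Pool.Agent.TH562.TW.BadT
import Pool.Agent.TH562.TW.Dup
import Pool.Agent.TH562.TW.Seq

/-! A good pair gives a squarefree twist with infinitely many points. -/

set_option autoImplicit false

namespace Pool.Agent.TH562.TW

theorem PZ_eq (A B : ℤ) (m s v : ℕ) : PZ A B m s v = v * GZ A B m s v := rfl

theorem arith {A B : ℤ} {M Q W m a a' : ℕ} (hQ : 0 < Q) (hMQ : M ∣ Q) (hQm : Q ∣ m)
    (hcop : Nat.Coprime a' Q) (haa : a' ≡ a [MOD M])
    (hQW' : ∀ p : ℕ, p.Prime → p ≤ W → p ∣ Q) {H₀ : ℤ}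
    (hH : ∀ (d x y : ℚ), d ≠ 0 → d * y ^ 2 = x ^ 3 + A * x + B → H₀ < ht x →
      {p : ℚ × ℚ | p.2 ^ 2 = p.1 ^ 3 + A * d ^ 2 * p.1 + B * d ^ 3}.Infinite)
    {i l : ℕ} (hg : GoodT (A * Q ^ 4) (B * Q ^ 6) m Q a' W (i, l))
    (hpos : 0 < PZ (A * Q ^ 4) (B * Q ^ 6) m (1 + Q * i) (a' + Q * l))
    (hv : H₀ < ((a' + Q * l : ℕ) : ℤ)) :
    ∃ d : ℕ, (d : ℤ) = PZ (A * Q ^ 4) (B * Q ^ 6) m (1 + Q * i) (a' + Q * l) ∧ Squarefree d ∧
      d ≡ a [MOD M] ∧
      {p : ℚ × ℚ | p.2 ^ 2 = p.1 ^ 3 + A * (d : ℚ) ^ 2 * p.1 + B * (d : ℚ) ^ 3}.Infinite := by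
  obtain ⟨hsv, hgood⟩ := hg
  simp only at hsv hgood
  set s : ℕ := 1 + Q * i with hs
  set v : ℕ := a' + Q * l with hvd
  obtain ⟨k, hk⟩ := hQm
  set G : ℤ := GZ (A * Q ^ 4) (B * Q ^ 6) m s v with hG
  set P : ℤ := PZ (A * Q ^ 4) (B * Q ^ 6) m s v with hP
  have hPG : P = v * G := rfl
  have hvpos : 0 < v := by
    rcases Nat.eq_zero_or_pos v with h | h
    · exfalso
      rw [hPG, h] at hpos
      simp at hpos
    · exact h
  -- G ≡ 1 mod Q
  have hG1 : (Q : ℤ) ∣ G - 1 := by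
    have e : G - 1 = Q * ((i - k * v) * (3 + 3 * ((Q : ℤ) * (i - k * v)) +
        ((Q : ℤ) * (i - k * v)) ^ 2) + A * Q ^ 3 * ((s : ℤ) - m * v) * (v : ℤ) ^ 2 +
        B * Q ^ 5 * (v : ℤ) ^ 3) := by
      rw [hG]; unfold GZ
      rw [hs, hk]; push_cast; ring
    rw [e]; exact Dvd.intro _ rfl
  have hv1 : (Q : ℤ) ∣ (v : ℤ) - a' := by
    have e : (v : ℤ) - a' = Q * l := by rw [hvd]; push_cast; ring
    rw [e]; exact Dvd.intro _ rfl
  set d : ℕ := P.toNat with hd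
  have hdP : (d : ℤ) = P := Int.toNat_of_nonneg hpos.le
  have hdpos : 0 < d := by
    have : (0 : ℤ) < d := by rw [hdP]; exact hpos
    exact_mod_cast this
  refine ⟨d, hdP, ?_, ?_, ?_⟩
  · -- squarefree
    rw [Nat.squarefree_iff_prime_squarefree]
    intro p hp hpd
    have hpZ : Prime (p : ℤ) := Nat.prime_iff_prime_int.1 hp
    have hpd' : ((p : ℤ) * p) ∣ v * G := by
      rw [← hPG, ← hdP]
      exact_mod_cast hpd
    -- p does not divide both
    have hnot : ¬ ((p : ℤ) ∣ v ∧ (p : ℤ) ∣ G) := by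
      rintro ⟨h1, h2⟩
      have h3 : (p : ℤ) ∣ (s : ℤ) ^ 3 := by
        have e : (s : ℤ) ^ 3 = G - v * (-3 * (s : ℤ) ^ 2 * m + 3 * s * (m : ℤ) ^ 2 * v -
            (m : ℤ) ^ 3 * (v : ℤ) ^ 2 + A * Q ^ 4 * ((s : ℤ) - m * v) * v +
            B * Q ^ 6 * (v : ℤ) ^ 2) := by
          rw [hG]; unfold GZ; ring
        rw [e]
        exact dvd_sub h2 (Dvd.dvd.mul_right h1 _)
      have h4 : (p : ℤ) ∣ (s : ℤ) := hpZ.dvd_of_dvd_pow h3
      have h5 : p ∣ s := Int.natCast_dvd_natCast.1 h4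
      have h6 : p ∣ v := Int.natCast_dvd_natCast.1 h1
      exact hp.one_lt.ne' (Nat.Coprime.eq_one_of_dvd (hsv.coprime_dvd_left h5) h6)
    rcases le_or_gt p W with hpW | hpW
    · have hpQ : (p : ℤ) ∣ Q := Int.natCast_dvd_natCast.2 (hQW' p hp hpW)
      have h1 : (p : ℤ) ∣ v * G := (Dvd.intro _ rfl).trans hpd'
      rcases hpZ.dvd_or_dvd h1 with h2 | h2
      · have h3 : (p : ℤ) ∣ a' := by
          have h4 := dvd_sub h2 (hpQ.trans hv1)
          simpa using h4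
        have h5 : p ∣ a' := Int.natCast_dvd_natCast.1 h3
        have h6 : p ∣ Q := hQW' p hp hpW
        exact hp.one_lt.ne' (Nat.Coprime.eq_one_of_dvd (hcop.coprime_dvd_left h5) h6)
      · have h3 : (p : ℤ) ∣ 1 := by
          have h4 := dvd_sub h2 (hpQ.trans hG1)
          simpa using h4
        exact hpZ.not_isUnit (isUnit_of_dvd_one h3)
    · obtain ⟨g1, g2⟩ := hgood p hp hpW
      by_cases hpv : (p : ℤ) ∣ v
      · have hpG : ¬ (p : ℤ) ∣ G := fun h => hnot ⟨hpv, h⟩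
        have hc : IsCoprime ((p : ℤ) * p) G := by
          have : IsCoprime (p : ℤ) G := (Prime.coprime_iff_not_dvd hpZ).2 hpG
          exact IsCoprime.mul_left this this
        have h3 : ((p : ℤ) * p) ∣ v := hc.dvd_of_dvd_mul_right hpd'
        apply g1
        rw [pow_two]
        exact_mod_cast h3
      · have hc : IsCoprime ((p : ℤ) * p) (v : ℤ) := by
          have : IsCoprime (p : ℤ) (v : ℤ) := (Prime.coprime_iff_not_dvd hpZ).2 hpv
          exact IsCoprime.mul_left this this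
        have h3 : ((p : ℤ) * p) ∣ G := hc.dvd_of_dvd_mul_left hpd'
        apply g2
        push_cast
        rw [pow_two]
        exact h3
  · -- residue class
    have h1 : (Q : ℤ) ∣ (d : ℤ) - a' := by
      rw [hdP, hPG]
      have e : (v : ℤ) * G - a' = v * (G - 1) + (v - a') := by ring
      rw [e]
      exact dvd_add (Dvd.dvd.mul_left hG1 _) hv1
    have h2 : (M : ℤ) ∣ (d : ℤ) - a' := (Int.natCast_dvd_natCast.2 hMQ).trans h1
    have h3 : a' ≡ d [MOD M] := (Nat.modEq_iff_dvd).2 h2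
    exact h3.symm.trans haa
  · -- the point
    set u : ℤ := (s : ℤ) - m * v with hu
    have hQ' : (Q : ℚ) ≠ 0 := by exact_mod_cast hQ.ne'
    have hv' : (v : ℚ) ≠ 0 := by exact_mod_cast hvpos.ne'
    have hcopu : IsCoprime u ((Q : ℤ) ^ 2 * v) := by
      have c1 : IsCoprime u (Q : ℤ) := by
        refine ⟨1, -(i - k * v), ?_⟩
        rw [hu, hs, hk]; push_cast; ring
      have c2 : IsCoprime u (v : ℤ) := by
        have h := Nat.Coprime.isCoprime hsv
        have h2 : IsCoprime ((s : ℤ) + (-m) * v) (v : ℤ) := by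
          rw [IsCoprime.add_mul_right_left_iff]
          exact h
        have e : u = (s : ℤ) + (-m) * v := by rw [hu]; ring
        rw [e]; exact h2
      exact IsCoprime.mul_right (c1.pow_right) c2
    have hdq : ((d : ℕ) : ℚ) = (v : ℚ) * ((u : ℚ) ^ 3 + A * Q ^ 4 * u * (v : ℚ) ^ 2 +
        B * Q ^ 6 * (v : ℚ) ^ 3) := by
      have h1 : ((d : ℤ) : ℚ) = ((v * G : ℤ) : ℚ) := by rw [hdP, hPG]
      rw [Int.cast_natCast] at h1
      rw [h1, hG]; unfold GZ
      rw [hu]; push_cast; ring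
    apply hH (d : ℚ) ((u : ℚ) / ((Q : ℚ) ^ 2 * v)) (1 / ((Q : ℚ) ^ 3 * (v : ℚ) ^ 2))
    · exact_mod_cast hdpos.ne'
    · rw [hdq]
      field_simp
    · refine lt_of_lt_of_le hv ?_
      have hden : (((u : ℚ) / ((Q : ℚ) ^ 2 * v)).den : ℤ) = (Q : ℤ) ^ 2 * v := by
        have h := Rat.den_div_eq_of_coprime (a := u) (b := (Q : ℤ) ^ 2 * v) (by positivity)
          (Int.isCoprime_iff_nat_coprime.1 hcopu)
        push_cast at h
        exact h
      unfold ht
      refine le_trans ?_ (le_max_right _ _)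
      rw [hden, abs_of_nonneg (by positivity)]
      have hQ1 : (1 : ℤ) ≤ (Q : ℤ) ^ 2 := by
        have : (1 : ℤ) ≤ Q := by exact_mod_cast hQ
        nlinarith
      have hv0 : (0 : ℤ) ≤ v := Int.natCast_nonneg _
      nlinarith

end Pool.Agent.TH562.TW
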