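import Mathlib
import Pool.Agent.TH562.TW.BadT
import Pool.Agent.TH562.TW.Seq

/-! Bad pairs have small proportion. -/

set_option autoImplicit false

namespace Pool.Agent.TH562.TW

open Finset Filter

theorem pi_small {ε : ℝ} (hε : 0 < ε) :
    ∀ᶠ n : ℕ in atTop, (Nat.primeCounting n : ℝ) ≤ ε * n := by
  have h1 := Chebyshev.eventually_primeCounting_le (ε := 1) one_pos
  have h2 : ∀ᶠ x : ℝ in atTop, (Real.log 4 + 1) / ε ≤ Real.log x :=
    Real.tendsto_log_atTop.eventually_ge_atTop _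
  have h3 := (h1.and (h2.and (eventually_gt_atTop 1)))
  have h4 := tendsto_natCast_atTop_atTop (R := ℝ) |>.eventually h3
  filter_upwards [h4] with n hn
  obtain ⟨g1, g2, g3⟩ := hn
  rw [Nat.floor_natCast] at g1
  have g4 : 0 < Real.log n := Real.log_pos g3
  refine g1.trans ?_
  rw [div_le_iff₀ g4]
  rw [div_le_iff₀ hε] at g2
  have g5 : (0 : ℝ) ≤ n := by linarith
  nlinarith

theorem log_small {ε : ℝ} (hε : 0 < ε) (Q : ℕ) (hQ : 0 < Q) :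
    ∀ᶠ r : ℕ in atTop, Real.log ((Q * r ^ 2 : ℕ) : ℝ) ≤ ε * r := by
  have h1 : ∀ᶠ x : ℝ in atTop, Real.log x ≤ ε / 4 * x := by
    have := Real.isLittleO_log_id_atTop.bound (show (0 : ℝ) < ε / 4 by positivity)
    filter_upwards [this, eventually_ge_atTop 1] with x hx hx1
    rw [Real.norm_of_nonneg (Real.log_nonneg hx1)] at hx
    simp only [id, Real.norm_eq_abs] at hx
    rwa [abs_of_nonneg (by linarith)] at hx
  have h2 := tendsto_natCast_atTop_atTop (R := ℝ) |>.eventually h1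
  have h3 : ∀ᶠ r : ℕ in atTop, Real.log Q ≤ ε / 2 * (r : ℝ) := by
    obtain ⟨n, hn⟩ := exists_nat_ge (Real.log Q / (ε / 2))
    filter_upwards [eventually_ge_atTop n] with r hr
    rw [div_le_iff₀ (by positivity)] at hn
    have : (n : ℝ) ≤ r := by exact_mod_cast hr
    nlinarith
  filter_upwards [h2, h3, eventually_ge_atTop 1] with r g1 g2 g3
  have hr : (0 : ℝ) < r := by exact_mod_cast g3
  have hQ' : (0 : ℝ) < Q := by exact_mod_cast hQ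
  push_cast
  rw [Real.log_mul hQ'.ne' (by positivity), Real.log_pow]
  push_cast
  linarith

open Classical in
theorem bad_eventually {A B : ℤ} {m Q a W : ℕ} {ρ c κ lam μ η : ℝ}
    (hP : ∀ s y, PR A B m s (ρ * s + y) =
      c * s ^ 4 - κ * s ^ 2 * y ^ 2 + lam * s * y ^ 3 + μ * y ^ 4)
    (hρ : 0 < ρ) (hκ : 0 < κ) (hc : 0 < c) (hη : 0 < η)
    (h1 : 12 * |lam| * η ≤ κ) (h2 : 16 * |μ| * η ^ 2 ≤ κ)
    (hQ : 0 < Q) (hW : 1 ≤ W) (hapos : 0 < a)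
    (hQW : ∀ p : ℕ, p.Prime → W < p → ¬ p ∣ Q)
    (hQW' : ∀ p : ℕ, p.Prime → p ≤ W → p ∣ Q)
    (hdisc : ∀ p : ℕ, p.Prime → W < p → ¬ (p : ℤ) ∣ 4 * A ^ 3 + 27 * B ^ 2)
    {C : ℝ} (hC : 0 < C) :
    ∀ᶠ r : ℕ in atTop, (((Reg ρ Q a (r ^ 2) (⌈ρ * (r : ℝ) ^ 2⌉₊ + (⌈C * r⌉₊ + 1))
      (⌈C * r⌉₊ + 1)).filter fun x => ¬ GoodT A B m Q a W x).card : ℝ) ≤
      7 * C * (r : ℝ) ^ 3 / W := by
  have hW' : (0 : ℝ) < W := by exact_mod_cast hW
  have hW1 : (1 : ℝ) ≤ W := by exact_mod_cast hW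
  have hQ' : (0 : ℝ) < Q := by exact_mod_cast hQ
  have hQ1 : (1 : ℝ) ≤ Q := by exact_mod_cast hQ
  -- constants
  obtain ⟨h, hh⟩ := exists_nat_ge (C + 2 + ρ * Q + Q * C + 2 * Q + c / ρ * (Q : ℝ) ^ 3)
  have hcρ : 0 < c / ρ * (Q : ℝ) ^ 3 := by positivity
  have hρQ : 0 < ρ * Q := by positivity
  have hQC : 0 < (Q : ℝ) * C := by positivity
  have hh1 : C + 2 ≤ h := by linarith
  have hh2 : (1 : ℝ) ≤ h := by linarith
  have hhsq : (h : ℝ) ≤ (h : ℝ) ^ 2 := by nlinarith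
  have hhpos : 0 < h := by
    have : (0 : ℝ) < h := by linarith
    exact_mod_cast this
  set E : ℝ := (C + 3) + 1 + 3 * (ρ + C + 3) + 3 with hE
  have hEpos : 0 < E := by rw [hE]; positivity
  set F : ℝ := (C + 6) + (C + 3 + Q) + 2 + 2 + (6 + 3 * ((C + 3) * (C + 2) / ρ)) + 3 * (Q ^ 2 * W)
    with hF
  have hFpos : 0 < F := by rw [hF]; positivity
  set ε : ℝ := C / (2 * W * E) with hε
  have hεpos : 0 < ε := by rw [hε]; positivity
  have hεh : 0 < ε / h := by positivity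
  -- eventual facts
  have e1 : ∀ᶠ r : ℕ in atTop, (Nat.primeCounting (h * r) : ℝ) ≤ ε * r := by
    have := (tendsto_id.const_mul_atTop' hhpos).eventually (pi_small hεh)
    filter_upwards [this] with r hr
    simp only [id] at hr
    refine hr.trans (le_of_eq ?_)
    have : (h : ℝ) ≠ 0 := by positivity
    push_cast
    field_simp
  have e2 : ∀ᶠ r : ℕ in atTop, (Nat.primeCounting (h * r ^ 3) : ℝ) ≤ ε * (r : ℝ) ^ 3 := by
    have ht : Tendsto (fun r : ℕ => h * r ^ 3) atTop atTop :=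
      (tendsto_pow_atTop (by norm_num)).const_mul_atTop' hhpos
    have := ht.eventually (pi_small hεh)
    filter_upwards [this] with r hr
    refine hr.trans (le_of_eq ?_)
    have : (h : ℝ) ≠ 0 := by positivity
    push_cast
    field_simp
  have e3 := log_small hεpos Q hQ
  have ebig : ∀ T : ℝ, ∀ᶠ r : ℕ in atTop, T ≤ (r : ℝ) := fun T =>
    (tendsto_natCast_atTop_atTop (R := ℝ)).eventually_ge_atTop T
  filter_upwards [e1, e2, e3, ebig 1, ebig (2 * W * F / C), ebig (W / C),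
    ebig ((C + 2) * W / η), ebig (2 * κ * (C + 2) ^ 2 * W ^ 2 / c + 1)] with r g1 g2 g3 g4 g5 g6 g7 g8
  have hr0 : (0 : ℝ) < r := by linarith
  have hr1 : 1 ≤ r := by exact_mod_cast g4
  set K : ℕ := ⌈C * r⌉₊ + 1 with hK
  set L : ℕ := ⌈ρ * (r : ℝ) ^ 2⌉₊ + K with hL
  set I1 : ℕ := ⌈(r : ℝ) ^ 2 / W⌉₊ with hI1
  have hK1 : C * r ≤ K := by
    have := Nat.le_ceil (C * (r : ℝ))
    rw [hK]; push_cast; linarith
  have hK2 : (K : ℝ) ≤ C * r + 2 := by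
    have := Nat.ceil_lt_add_one (by positivity : 0 ≤ C * (r : ℝ))
    rw [hK]; push_cast; linarith
  have hK3 : (K : ℝ) ≤ (C + 2) * r := by
    have : (C + 2) * (r : ℝ) = C * r + 2 * r := by ring
    linarith only [this, hK2, g4]
  have hKh : K ≤ h * r := by
    have : (K : ℝ) ≤ h * r := hK3.trans (mul_le_mul_of_nonneg_right hh1 hr0.le)
    exact_mod_cast this
  have hL2 : (L : ℝ) ≤ ρ * (r : ℝ) ^ 2 + C * r + 3 := by
    have := Nat.ceil_lt_add_one (by positivity : 0 ≤ ρ * (r : ℝ) ^ 2)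
    rw [hL]; push_cast; linarith
  have hI11 : (r : ℝ) ^ 2 / W ≤ I1 := Nat.le_ceil _
  have hI12 : (I1 : ℝ) ≤ (r : ℝ) ^ 2 / W + 1 :=
    (Nat.ceil_lt_add_one (by positivity : 0 ≤ (r : ℝ) ^ 2 / W)).le
  have hI1pos : (0 : ℝ) < I1 := lt_of_lt_of_le (by positivity) hI11
  have hKpos : (0 : ℝ) < K := lt_of_lt_of_le (by positivity) hK1
  have hr2 : (1 : ℝ) ≤ (r : ℝ) ^ 2 := one_le_pow₀ g4
  have hrr2 : (r : ℝ) ≤ (r : ℝ) ^ 2 := le_self_pow₀ g4 (by norm_num)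
  have hWK : W ≤ K := by
    rw [div_le_iff₀ hC] at g6
    have : (W : ℝ) ≤ K := by linarith
    exact_mod_cast this
  have hKη : (K : ℝ) ≤ η * I1 := by
    rw [div_le_iff₀ hη] at g7
    have h3 : (C + 2) * r ≤ η * ((r : ℝ) ^ 2 / W) := by
      rw [mul_div_assoc', le_div_iff₀ hW']
      have h3 := mul_le_mul_of_nonneg_right g7 hr0.le
      linarith only [h3]
    have h4 := mul_le_mul_of_nonneg_left hI11 hη.le
    linarith
  have hKc : 2 * κ * (K : ℝ) ^ 2 < c * (I1 : ℝ) ^ 2 := by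
    have h3 : 2 * κ * (C + 2) ^ 2 * W ^ 2 / c < (r : ℝ) ^ 2 := by linarith only [g8, hrr2]
    rw [div_lt_iff₀ hc] at h3
    have h4 : 2 * κ * (K : ℝ) ^ 2 ≤ 2 * κ * ((C + 2) * r) ^ 2 := by gcongr
    have h5 : 2 * κ * ((C + 2) * r) ^ 2 < c * ((r : ℝ) ^ 2 / W) ^ 2 := by
      rw [div_pow, mul_div_assoc', lt_div_iff₀ (by positivity)]
      have : 2 * κ * ((C + 2) * (r : ℝ)) ^ 2 * (W : ℝ) ^ 2 =
        (2 * κ * (C + 2) ^ 2 * W ^ 2) * (r : ℝ) ^ 2 := by ring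
      rw [this]
      have h6 : c * ((r : ℝ) ^ 2) ^ 2 = ((r : ℝ) ^ 2 * c) * (r : ℝ) ^ 2 := by ring
      rw [h6]
      exact mul_lt_mul_of_pos_right h3 (by positivity)
    have h6 : c * ((r : ℝ) ^ 2 / W) ^ 2 ≤ c * (I1 : ℝ) ^ 2 := by gcongr
    linarith
  have hKK : (1 : ℝ) ≤ K := by
    have : 1 ≤ K := by rw [hK]; omega
    exact_mod_cast this
  have hbad := bad_count (A := A) (B := B) (m := m) (Q := Q) (a := a) (W := W) (ρ := ρ)
    hρ hQ hW hQW hQW' hdisc (I := r ^ 2) (L := L) (K := K) (I1 := I1) (S := Q * r ^ 2)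
    (X2 := h * r) (X4 := h * r ^ 3) (by
      intro i hi
      have h3 : Q * (i + 1) ≤ Q * r ^ 2 := Nat.mul_le_mul_left Q hi
      rw [Nat.mul_add, Nat.mul_one] at h3
      omega) (by rw [hK]; omega) hWK (by exact_mod_cast hI1pos) (by
      intro x hx
      obtain ⟨⟨hx1, _⟩, _, hx4⟩ := mem_Reg.1 hx
      have h3 : ((1 + Q * x.1 : ℕ) : ℝ) ≤ Q * (r : ℝ) ^ 2 := by
        have h3 : Q * (x.1 + 1) ≤ Q * r ^ 2 := Nat.mul_le_mul_left Q hx1
        rw [Nat.mul_add, Nat.mul_one] at h3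
        have h3 : 1 + Q * x.1 ≤ Q * r ^ 2 := by omega
        exact_mod_cast h3
      have h4 : ((a + Q * x.2 : ℕ) : ℝ) < (((h * r) ^ 2 : ℕ) : ℝ) := by
        push_cast at hx4 ⊢
        push_cast at h3
        have h5 : (h : ℝ) * (r : ℝ) ^ 2 ≤ (h * r) ^ 2 := by
          have : (h : ℝ) * (r : ℝ) ^ 2 ≤ (h : ℝ) ^ 2 * (r : ℝ) ^ 2 :=
            mul_le_mul_of_nonneg_right hhsq (by positivity)
          rw [mul_pow]; exact this
        have h6 : ρ * (1 + Q * (x.1 : ℝ)) ≤ ρ * (Q * (r : ℝ) ^ 2) :=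
          mul_le_mul_of_nonneg_left h3 hρ.le
        have h7 : (Q : ℝ) * K ≤ Q * ((C + 2) * (r : ℝ) ^ 2) := by
          apply mul_le_mul_of_nonneg_left _ hQ'.le
          exact hK3.trans (mul_le_mul_of_nonneg_left hrr2 (by positivity))
        have h8 : (ρ * Q + Q * C + 2 * Q) * (r : ℝ) ^ 2 ≤ h * (r : ℝ) ^ 2 :=
          mul_le_mul_of_nonneg_right (by linarith) (by positivity)
        have h9 : (ρ * Q + Q * C + 2 * Q) * (r : ℝ) ^ 2 =
          ρ * (Q * (r : ℝ) ^ 2) + Q * ((C + 2) * (r : ℝ) ^ 2) := by ring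
        linarith
      have h5 : a + Q * x.2 < (h * r) ^ 2 := by exact_mod_cast h4
      have h6 : (h * r) ^ 2 ≤ (h * r + 1) ^ 2 := Nat.pow_le_pow_left (by omega) 2
      omega) hapos (by
      intro x hx hxI
      obtain ⟨⟨hx1, _⟩, hx3, hx4⟩ := mem_Reg.1 hx
      have h3 : ((1 + Q * x.1 : ℕ) : ℝ) ≤ Q * (r : ℝ) ^ 2 := by
        have h3 : Q * (x.1 + 1) ≤ Q * r ^ 2 := Nat.mul_le_mul_left Q hx1
        rw [Nat.mul_add, Nat.mul_one] at h3
        have h3 : 1 + Q * x.1 ≤ Q * r ^ 2 := by omega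
        exact_mod_cast h3
      have hs1 : (Q : ℝ) * I1 ≤ ((1 + Q * x.1 : ℕ) : ℝ) := by
        have h5 : Q * I1 ≤ 1 + Q * x.1 := by
          have := Nat.mul_le_mul_left Q hxI
          omega
        exact_mod_cast h5
      set s : ℝ := ((1 + Q * x.1 : ℕ) : ℝ) with hs
      set v : ℝ := ((a + Q * x.2 : ℕ) : ℝ) with hv
      have hs0 : 0 < s := by rw [hs]; positivity
      have hy1 : 0 ≤ v - ρ * s := by linarith
      have hy2 : v - ρ * s ≤ Q * K := by linarith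
      have hy3 : v - ρ * s ≤ η * s := by
        have h5 : (Q : ℝ) * K ≤ Q * (η * I1) := mul_le_mul_of_nonneg_left hKη hQ'.le
        have h6 : η * (Q * I1) ≤ η * s := mul_le_mul_of_nonneg_left hs1 hη.le
        have h7 : (Q : ℝ) * (η * I1) = η * (Q * I1) := by ring
        linarith
      have hv0 : 0 < v := lt_of_lt_of_le (by positivity) hx3
      have hPv : PR A B m s v = v * (GZ A B m (1 + Q * x.1) (a + Q * x.2) : ℝ) := by
        rw [hs, hv]; unfold PR GZ; push_cast; ring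
      have hup := PR_upper hP h1 h2 (s := s) (y := v - ρ * s) hs0.le hy1 hy3
      have hlo := PR_lower hP h1 h2 (s := s) (y := v - ρ * s) hs0.le hy1 hy3
      have ev : ρ * s + (v - ρ * s) = v := by ring
      rw [ev, hPv] at hup hlo
      constructor
      · have h5 : 0 < v * (GZ A B m (1 + Q * x.1) (a + Q * x.2) : ℝ) := by
          refine lt_of_lt_of_le ?_ hlo
          have e : c * s ^ 4 - 2 * κ * s ^ 2 * (v - ρ * s) ^ 2 =
            s ^ 2 * (c * s ^ 2 - 2 * κ * (v - ρ * s) ^ 2) := by ring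
          rw [e]
          apply mul_pos (by positivity)
          have h6 : (v - ρ * s) ^ 2 ≤ (Q * K) ^ 2 := pow_le_pow_left₀ hy1 hy2 2
          have h7 : ((Q : ℝ) * I1) ^ 2 ≤ s ^ 2 := pow_le_pow_left₀ (by positivity) hs1 2
          have h8 : 2 * κ * (v - ρ * s) ^ 2 ≤ 2 * κ * (Q * K) ^ 2 := by gcongr
          have h9 : c * ((Q : ℝ) * I1) ^ 2 ≤ c * s ^ 2 := by gcongr
          have h10 : (2 * κ * (K : ℝ) ^ 2) * (Q : ℝ) ^ 2 < (c * (I1 : ℝ) ^ 2) * (Q : ℝ) ^ 2 :=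
            mul_lt_mul_of_pos_right hKc (by positivity)
          have h11 : 2 * κ * ((Q : ℝ) * K) ^ 2 = (2 * κ * (K : ℝ) ^ 2) * (Q : ℝ) ^ 2 := by ring
          have h12 : c * ((Q : ℝ) * I1) ^ 2 = (c * (I1 : ℝ) ^ 2) * (Q : ℝ) ^ 2 := by ring
          linarith
        have h6 := (mul_pos_iff_of_pos_left hv0).1 h5
        exact_mod_cast h6
      · have h5 : (GZ A B m (1 + Q * x.1) (a + Q * x.2) : ℝ) < (((h * r ^ 3 + 1) ^ 2 : ℕ) : ℝ) := by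
          have h6 : v * (GZ A B m (1 + Q * x.1) (a + Q * x.2) : ℝ) ≤ v * (c / ρ * s ^ 3) := by
            have h7 : v * (GZ A B m (1 + Q * x.1) (a + Q * x.2) : ℝ) ≤ c * s ^ 4 := by
              have : 0 ≤ κ / 2 * s ^ 2 * (v - ρ * s) ^ 2 := by positivity
              linarith
            have h8 : (ρ * s) * (c / ρ * s ^ 3) ≤ v * (c / ρ * s ^ 3) :=
              mul_le_mul_of_nonneg_right hx3 (by positivity)
            have h9 : (ρ * s) * (c / ρ * s ^ 3) = c * s ^ 4 := by field_simp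
            linarith
          have h7 := le_of_mul_le_mul_left h6 hv0
          have h8 : c / ρ * s ^ 3 ≤ c / ρ * (Q * (r : ℝ) ^ 2) ^ 3 := by gcongr
          have h9 : c / ρ * (Q * (r : ℝ) ^ 2) ^ 3 = (c / ρ * (Q : ℝ) ^ 3) * ((r : ℝ) ^ 3) ^ 2 := by
            ring
          have h10 : (c / ρ * (Q : ℝ) ^ 3) * ((r : ℝ) ^ 3) ^ 2 ≤ (h : ℝ) ^ 2 * ((r : ℝ) ^ 3) ^ 2 :=
            mul_le_mul_of_nonneg_right (by linarith) (by positivity)
          have h11 : (h : ℝ) ^ 2 * ((r : ℝ) ^ 3) ^ 2 < (h * (r : ℝ) ^ 3 + 1) ^ 2 := by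
            have h11 : 0 ≤ (h : ℝ) * (r : ℝ) ^ 3 := by positivity
            rw [← mul_pow]
            exact pow_lt_pow_left₀ (by linarith only) h11 two_ne_zero
          push_cast
          linarith
        exact_mod_cast h5)
  refine hbad.trans ?_
  -- the sum
  have hπK : (Nat.primeCounting K : ℝ) ≤ ε * r :=
    le_trans (by exact_mod_cast Nat.monotone_primeCounting hKh) g1
  have hπ0 : (0 : ℝ) ≤ Nat.primeCounting K := Nat.cast_nonneg _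
  have t0 : (I1 : ℝ) * (K + 1) ≤ C * (r : ℝ) ^ 3 / W + (C + 6) * (r : ℝ) ^ 2 := by
    have h3 : (I1 : ℝ) * (K + 1) ≤ ((r : ℝ) ^ 2 / W + 1) * (C * r + 3) := by
      apply mul_le_mul hI12 (by linarith) (by positivity) (by positivity)
    have h4 : (r : ℝ) ^ 2 / W ≤ (r : ℝ) ^ 2 := div_le_self (by positivity) hW1
    have h5 : ((r : ℝ) ^ 2 / W + 1) * (C * r + 3) =
      C * (r : ℝ) ^ 3 / W + 3 * ((r : ℝ) ^ 2 / W) + C * r + 3 := by ring
    have h6 : C * (r : ℝ) ≤ C * (r : ℝ) ^ 2 := mul_le_mul_of_nonneg_left hrr2 hC.le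
    linarith
  have t1 : ((r ^ 2 : ℕ) : ℝ) * K / W ≤ C * (r : ℝ) ^ 3 / W + 2 * (r : ℝ) ^ 2 := by
    push_cast
    have h3 : (r : ℝ) ^ 2 * K / W ≤ (r : ℝ) ^ 2 * (C * r + 2) / W := by gcongr
    have h4 : (r : ℝ) ^ 2 / W ≤ (r : ℝ) ^ 2 := div_le_self (by positivity) hW1
    have h5 : (r : ℝ) ^ 2 * (C * r + 2) / W = C * (r : ℝ) ^ 3 / W + 2 * ((r : ℝ) ^ 2 / W) := by ring
    linarith
  have t1' : (((r ^ 2 : ℕ) : ℝ) + K) * (1 + Real.log ((Q * r ^ 2 : ℕ) : ℝ)) +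
      ((Q * r ^ 2 : ℕ) : ℝ) ≤ (C + 3) * ε * (r : ℝ) ^ 3 + (C + 3 + Q) * (r : ℝ) ^ 2 := by
    have h3 : ((r ^ 2 : ℕ) : ℝ) + K ≤ (C + 3) * (r : ℝ) ^ 2 := by
      push_cast
      have : (C + 2) * (r : ℝ) ≤ (C + 2) * (r : ℝ) ^ 2 := mul_le_mul_of_nonneg_left hrr2 (by positivity)
      linarith
    have h4 : 0 ≤ 1 + Real.log ((Q * r ^ 2 : ℕ) : ℝ) := by
      have : 0 ≤ Real.log ((Q * r ^ 2 : ℕ) : ℝ) := by
        apply Real.log_nonneg
        have : 1 ≤ Q * r ^ 2 := Nat.mul_pos hQ (pow_pos (by omega) 2)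
        exact_mod_cast this
      linarith
    have h5 : (((r ^ 2 : ℕ) : ℝ) + K) * (1 + Real.log ((Q * r ^ 2 : ℕ) : ℝ)) ≤
        ((C + 3) * (r : ℝ) ^ 2) * (1 + ε * r) :=
      mul_le_mul h3 (by linarith) h4 (by positivity)
    have h6 : ((C + 3) * (r : ℝ) ^ 2) * (1 + ε * r) =
      (C + 3) * (r : ℝ) ^ 2 + (C + 3) * ε * (r : ℝ) ^ 3 := by ring
    have h7 : ((Q * r ^ 2 : ℕ) : ℝ) = Q * (r : ℝ) ^ 2 := by push_cast; ring
    linarith only [h5, h6, h7]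
  have t2 : ((r ^ 2 : ℕ) : ℝ) * Nat.primeCounting (h * r) ≤ ε * (r : ℝ) ^ 3 := by
    push_cast
    have : (r : ℝ) ^ 2 * Nat.primeCounting (h * r) ≤ (r : ℝ) ^ 2 * (ε * r) :=
      mul_le_mul_of_nonneg_left g1 (by positivity)
    have e : (r : ℝ) ^ 2 * (ε * r) = ε * (r : ℝ) ^ 3 := by ring
    linarith
  have t3 : (L : ℝ) * K / ρ / W ≤ C * (r : ℝ) ^ 3 / W +
      (2 + (C + 3) * (C + 2) / ρ) * (r : ℝ) ^ 2 := by
    have h3 : (L : ℝ) * K ≤ ρ * (r : ℝ) ^ 2 * (C * r) + ρ * (r : ℝ) ^ 2 * 2 +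
        ((C + 3) * (C + 2)) * (r : ℝ) ^ 2 := by
      have h4 : (L : ℝ) * K ≤ (ρ * (r : ℝ) ^ 2 + (C * r + 3)) * (C * r + 2) := by
        apply mul_le_mul (by linarith) hK2 hKpos.le (by positivity)
      have h5 : (C * r + 3) * (C * r + 2) ≤ ((C + 3) * r) * ((C + 2) * r) := by
        apply mul_le_mul _ _ (by positivity) (by positivity)
        · linarith only [g4]
        · linarith only [g4]
      have h6 : (ρ * (r : ℝ) ^ 2 + (C * r + 3)) * (C * r + 2) = ρ * (r : ℝ) ^ 2 * (C * r) +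
        ρ * (r : ℝ) ^ 2 * 2 + (C * r + 3) * (C * r + 2) := by ring
      have h7 : ((C + 3) * (r : ℝ)) * ((C + 2) * r) = ((C + 3) * (C + 2)) * (r : ℝ) ^ 2 := by ring
      linarith
    have h4 : (L : ℝ) * K / ρ / W ≤ (ρ * (r : ℝ) ^ 2 * (C * r) + ρ * (r : ℝ) ^ 2 * 2 +
        ((C + 3) * (C + 2)) * (r : ℝ) ^ 2) / ρ / W := by gcongr
    have h5 : (ρ * (r : ℝ) ^ 2 * (C * r) + ρ * (r : ℝ) ^ 2 * 2 +
        ((C + 3) * (C + 2)) * (r : ℝ) ^ 2) / ρ / W = C * (r : ℝ) ^ 3 / W +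
        ((2 + (C + 3) * (C + 2) / ρ) * (r : ℝ) ^ 2) / W := by
      field_simp
      ring
    have h6 : ((2 + (C + 3) * (C + 2) / ρ) * (r : ℝ) ^ 2) / W ≤
      (2 + (C + 3) * (C + 2) / ρ) * (r : ℝ) ^ 2 := div_le_self (by positivity) hW1
    linarith
  have t3' : (L : ℝ) * Nat.primeCounting K ≤ (ρ + C + 3) * ε * (r : ℝ) ^ 3 := by
    have h3 : (L : ℝ) ≤ (ρ + C + 3) * (r : ℝ) ^ 2 := by
      have : C * (r : ℝ) ≤ C * (r : ℝ) ^ 2 := mul_le_mul_of_nonneg_left hrr2 hC.le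
      linarith
    have h4 : (L : ℝ) * Nat.primeCounting K ≤ ((ρ + C + 3) * (r : ℝ) ^ 2) * (ε * r) :=
      mul_le_mul h3 hπK hπ0 (by positivity)
    have e : ((ρ + C + 3) * (r : ℝ) ^ 2) * (ε * r) = (ρ + C + 3) * ε * (r : ℝ) ^ 3 := by ring
    linarith
  have t4 : (K : ℝ) * ((Q * r ^ 2 : ℕ) : ℝ) ^ 2 / (I1 * K) ≤ (Q ^ 2 * W) * (r : ℝ) ^ 2 := by
    rw [div_le_iff₀ (by positivity)]
    have h3 : (r : ℝ) ^ 2 ≤ W * I1 := by
      rw [div_le_iff₀ hW'] at hI11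
      linarith
    push_cast
    have h4 : (K : ℝ) * (Q * (r : ℝ) ^ 2) ^ 2 = (K * Q ^ 2 * (r : ℝ) ^ 2) * (r : ℝ) ^ 2 := by ring
    rw [h4]
    have h5 : (K * Q ^ 2 * (r : ℝ) ^ 2) * (r : ℝ) ^ 2 ≤ (K * Q ^ 2 * (r : ℝ) ^ 2) * (W * I1) :=
      mul_le_mul_of_nonneg_left h3 (by positivity)
    refine h5.trans (le_of_eq ?_)
    ring
  have hfin1 : E * ε * (r : ℝ) ^ 3 = C * (r : ℝ) ^ 3 / W / 2 := by
    rw [hε]; field_simp
  have hfin2 : F * (r : ℝ) ^ 2 ≤ C * (r : ℝ) ^ 3 / W / 2 := by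
    rw [div_le_iff₀ hC] at g5
    rw [div_div, le_div_iff₀ (by positivity)]
    have h3 := mul_le_mul_of_nonneg_right g5 (sq_nonneg (r : ℝ))
    linarith only [h3]
  have hEe : E * ε * (r : ℝ) ^ 3 = (C + 3) * ε * (r : ℝ) ^ 3 + ε * (r : ℝ) ^ 3 +
      3 * ((ρ + C + 3) * ε * (r : ℝ) ^ 3) + 3 * (ε * (r : ℝ) ^ 3) := by rw [hE]; ring
  have hFe : F * (r : ℝ) ^ 2 = (C + 6) * (r : ℝ) ^ 2 + (C + 3 + Q) * (r : ℝ) ^ 2 +
      2 * (r : ℝ) ^ 2 + 2 * (r : ℝ) ^ 2 + 3 * ((2 + (C + 3) * (C + 2) / ρ) * (r : ℝ) ^ 2) +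
      3 * ((Q ^ 2 * W) * (r : ℝ) ^ 2) := by rw [hF]; ring
  have htot : 7 * C * (r : ℝ) ^ 3 / W = 7 * (C * (r : ℝ) ^ 3 / W) := by ring
  rw [htot]
  linarith

end Pool.Agent.TH562.TW
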