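import Mathlib
import Pool.Agent.TH562.TW.BadE
import Pool.Agent.TH562.TW.Arith

/-! The exceptional set. -/

set_option autoImplicit false

namespace Pool.Agent.TH562.TW

open Finset Filter

theorem exists_eta (lam μ κ : ℝ) (hκ : 0 < κ) :
    ∃ η : ℝ, 0 < η ∧ 12 * |lam| * η ≤ κ ∧ 16 * |μ| * η ^ 2 ≤ κ := by
  have hl := abs_nonneg lam
  have hm := abs_nonneg μ
  have hden : 0 < 16 * (|lam| + |μ| + 1) := by positivity
  set e : ℝ := κ / (16 * (|lam| + |μ| + 1)) with he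
  have he0 : 0 < e := div_pos hκ hden
  have he1 : e * (16 * (|lam| + |μ| + 1)) = κ := by rw [he]; field_simp
  refine ⟨min 1 e, lt_min one_pos he0, ?_, ?_⟩
  · have h1 : min 1 e ≤ e := min_le_right _ _
    calc 12 * |lam| * min 1 e ≤ 12 * |lam| * e := by gcongr
      _ ≤ κ := by nlinarith
  · have h1 : min 1 e ≤ e := min_le_right _ _
    have h2 : min 1 e ≤ 1 := min_le_left _ _
    have h0 : 0 < min 1 e := lt_min one_pos he0
    calc 16 * |μ| * (min 1 e) ^ 2 = 16 * |μ| * (min 1 e * min 1 e) := by ring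
      _ ≤ 16 * |μ| * (1 * e) := by gcongr
      _ ≤ κ := by nlinarith

theorem card_toNat (p q : ℤ) {D : ℝ} (hD : 0 ≤ D) (h : (q : ℝ) - p ≤ D) :
    ((Ico p.toNat q.toNat).card : ℝ) ≤ D := by
  rw [Nat.card_Ico]
  have h1 : ((q.toNat - p.toNat : ℕ) : ℤ) ≤ max 0 (q - p) := by omega
  have h2 : ((q.toNat - p.toNat : ℕ) : ℝ) ≤ max 0 ((q : ℝ) - p) := by exact_mod_cast h1
  exact h2.trans (max_le hD h)

/-- the width of a strip in row `i` -/
noncomputable def Kf (C : ℝ) (Q i : ℕ) : ℕ := ⌈C * √(((1 + Q * i : ℕ) : ℝ) / Q)⌉₊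

open Classical in
theorem main {A B : ℤ} (hΔ : 4 * A ^ 3 + 27 * B ^ 2 ≠ 0) {M : ℕ} (hM : 0 < M) {a : ℕ}
    (ha : a.Coprime M) {δ : ℝ} (hδ : 0 < δ) :
    ∃ C : ℝ, 0 < C ∧ ∀ᶠ N : ℕ in atTop,
      (((Finset.Icc 1 N).filter fun x : ℕ => ¬ ∃ d : ℕ, x ≤ d ∧
        (d : ℝ) ≤ x + C * (x : ℝ) ^ (5 / 8 : ℝ) ∧ Squarefree d ∧ d ≡ a [MOD M] ∧
        {p : ℚ × ℚ | p.2 ^ 2 = p.1 ^ 3 + A * (d : ℚ) ^ 2 * p.1 +
          B * (d : ℚ) ^ 3}.Infinite).card : ℝ) ≤ δ * N := by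
  obtain ⟨H₀, hH⟩ := infinite_points A B hΔ
  -- the modulus
  obtain ⟨W0, hW0⟩ := exists_nat_ge (22020096 / δ)
  set W : ℕ := W0 + M + (4 * A ^ 3 + 27 * B ^ 2).natAbs + 2 with hWdef
  have hW1 : 1 ≤ W := by omega
  have hW' : (0 : ℝ) < W := by exact_mod_cast hW1
  have hWδ : 22020096 / δ ≤ W := by
    refine hW0.trans ?_
    have : W0 ≤ W := by omega
    exact_mod_cast this
  set Q : ℕ := W.factorial with hQdef
  have hQ : 0 < Q := Nat.factorial_pos W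
  have hQ' : (0 : ℝ) < Q := by exact_mod_cast hQ
  have hQ1 : (1 : ℝ) ≤ Q := by exact_mod_cast hQ
  have hMQ : M ∣ Q := Nat.dvd_factorial hM (by omega)
  have hQW : ∀ p : ℕ, p.Prime → W < p → ¬ p ∣ Q := by
    intro p hp hpW hd
    have := (hp.dvd_factorial).1 hd
    omega
  have hQW' : ∀ p : ℕ, p.Prime → p ≤ W → p ∣ Q := fun p hp hpW => (hp.dvd_factorial).2 hpW
  -- the residue class
  obtain ⟨a', ha'Q, ha'p, ha'M⟩ := Nat.forall_exists_prime_gt_and_modEq Q hM.ne' ha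
  have ha'pos : 0 < a' := ha'p.pos
  have ha'cop : Nat.Coprime a' Q := by
    rw [Nat.Prime.coprime_iff_not_dvd ha'p]
    intro hd
    have := Nat.le_of_dvd hQ hd
    omega
  -- the form
  set A' : ℤ := A * Q ^ 4 with hA'
  set B' : ℤ := B * Q ^ 6 with hB'
  obtain ⟨m, hQm, hm0, ρ, c, κ, lam, μ, hρ, hc, hκ, hP⟩ := crit (A' : ℝ) (B' : ℝ) Q hQ
  obtain ⟨η, hη, hη1, hη2⟩ := exists_eta lam μ κ hκ
  have hdisc : ∀ p : ℕ, p.Prime → W < p → ¬ (p : ℤ) ∣ 4 * A' ^ 3 + 27 * B' ^ 2 := by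
    intro p hp hpW hd
    have hpZ : Prime (p : ℤ) := Nat.prime_iff_prime_int.1 hp
    have e : 4 * A' ^ 3 + 27 * B' ^ 2 = (Q : ℤ) ^ 12 * (4 * A ^ 3 + 27 * B ^ 2) := by
      rw [hA', hB']; ring
    rw [e] at hd
    rcases hpZ.dvd_or_dvd hd with h | h
    · have h1 := hpZ.dvd_of_dvd_pow h
      exact hQW p hp hpW (Int.natCast_dvd_natCast.1 h1)
    · have h1 : p ∣ (4 * A ^ 3 + 27 * B ^ 2).natAbs := Int.natCast_dvd.1 h
      have h2 := Nat.le_of_dvd (Int.natAbs_pos.2 hΔ) h1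
      omega
  -- the width constant
  set C3 : ℝ := 4 * √(c / κ) with hC3
  have hC3pos : 0 < C3 := by
    rw [hC3]
    have : 0 < √(c / κ) := Real.sqrt_pos.2 (div_pos hc hκ)
    positivity
  have hC3sq : C3 ^ 2 = 16 * (c / κ) := by
    rw [hC3, mul_pow, Real.sq_sqrt (div_pos hc hκ).le]; norm_num
  have hKf1 : ∀ i, C3 * √(((1 + Q * i : ℕ) : ℝ) / Q) ≤ Kf C3 Q i := fun i => Nat.le_ceil _
  have hKf2 : ∀ i, (Kf C3 Q i : ℝ) ≤ C3 * √(((1 + Q * i : ℕ) : ℝ) / Q) + 1 := fun i =>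
    (Nat.ceil_lt_add_one (by positivity)).le
  -- the threshold
  set T : ℝ := a' / ρ + ((Q * C3 + 3 * Q) / η) ^ 2 + 1 + κ * Q / (2 * c) + (|(H₀ : ℝ)| + 1) / ρ +
    2 * Q + 16 * κ * Q ^ 2 / c with hT
  have hH0 := abs_nonneg (H₀ : ℝ)
  have p1 : 0 ≤ (a' : ℝ) / ρ := by positivity
  have p2 : 0 ≤ ((Q * C3 + 3 * Q) / η) ^ 2 := by positivity
  have p3 : 0 ≤ κ * Q / (2 * c) := by positivity
  have p4 : 0 ≤ (|(H₀ : ℝ)| + 1) / ρ := by positivity
  have p5 : 0 ≤ 16 * κ * Q ^ 2 / c := by positivity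
  obtain ⟨i0, hi0T⟩ := exists_nat_ge T
  have hsT : ∀ i, i0 ≤ i → T ≤ ((1 + Q * i : ℕ) : ℝ) := by
    intro i hi
    refine hi0T.trans ?_
    have : i0 ≤ 1 + Q * i := by
      have : 1 * i ≤ Q * i := Nat.mul_le_mul_right i hQ
      omega
    exact_mod_cast this
  have hsq : ∀ s : ℝ, T ≤ s → 1 ≤ √s ∧ (Q : ℝ) * (C3 * √(s / Q) + 3) ≤ η * s := by
    intro s hs
    have hs1 : 1 ≤ s := by linarith only [hs, hT, p1, p2, p3, p4, p5, hQ']
    have h1 : 1 ≤ √s := by rw [Real.one_le_sqrt]; exact hs1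
    refine ⟨h1, ?_⟩
    have h2 : (Q * C3 + 3 * Q) / η ≤ √s := by
      apply Real.le_sqrt_of_sq_le
      linarith only [hs, hT, p1, p2, p3, p4, p5, hQ']
    rw [div_le_iff₀ hη] at h2
    have h3 : √(s / Q) ≤ √s := Real.sqrt_le_sqrt (div_le_self (by linarith only [hs1]) hQ1)
    have h4 : √s * √s = s := Real.mul_self_sqrt (by linarith only [hs1])
    calc (Q : ℝ) * (C3 * √(s / Q) + 3) ≤ Q * (C3 * √s + 3 * √s) := by
          gcongr
          linarith only [h1]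
      _ = (Q * C3 + 3 * Q) * √s := by ring
      _ ≤ (√s * η) * √s := by gcongr
      _ = η * (√s * √s) := by ring
      _ = η * s := by rw [h4]
  have hi0 : ∀ i, i0 ≤ i → ((a' : ℝ) ≤ ρ * ((1 + Q * i : ℕ) : ℝ) ∧
      (Q : ℝ) * (Kf C3 Q i + 2) ≤ η * ((1 + Q * i : ℕ) : ℝ) ∧
      4 * c * ((1 + Q * i : ℕ) : ℝ) + 2 * κ * Q ≤ κ / 2 * Q * (Kf C3 Q i : ℝ) ^ 2) := by
    intro i hi
    have hs := hsT i hi
    set s : ℝ := ((1 + Q * i : ℕ) : ℝ) with hsdef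
    refine ⟨?_, ?_, ?_⟩
    · have : (a' : ℝ) / ρ ≤ s := by linarith only [hs, hT, p1, p2, p3, p4, p5, hQ']
      rw [div_le_iff₀ hρ] at this
      linarith only [this]
    · have h1 := (hsq s hs).2
      have h2 := hKf2 i
      rw [← hsdef] at h2
      have h3 : (Q : ℝ) * (Kf C3 Q i + 2) ≤ Q * (C3 * √(s / Q) + 3) :=
        mul_le_mul_of_nonneg_left (by linarith only [h2]) hQ'.le
      linarith only [h1, h3]
    · have h1 : κ * Q / (2 * c) ≤ s := by linarith only [hs, hT, p1, p2, p3, p4, p5, hQ']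
      rw [div_le_iff₀ (by positivity)] at h1
      have hs0 : 0 ≤ s := by rw [hsdef]; positivity
      have h2 : (C3 * √(s / Q)) ^ 2 ≤ (Kf C3 Q i : ℝ) ^ 2 :=
        pow_le_pow_left₀ (by positivity) (hKf1 i) 2
      have h3 : (C3 * √(s / Q)) ^ 2 = 16 * (c / κ) * (s / Q) := by
        rw [mul_pow, hC3sq, Real.sq_sqrt (by positivity)]
      rw [h3] at h2
      have h4 : κ / 2 * Q * (16 * (c / κ) * (s / Q)) ≤ κ / 2 * Q * (Kf C3 Q i : ℝ) ^ 2 := by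
        gcongr
      have h5 : κ / 2 * Q * (16 * (c / κ) * (s / Q)) = 8 * c * s := by
        field_simp
        ring
      rw [h5] at h4
      linarith only [h1, h4]
  have hcov := fun x : ℤ => cover (A := A') (B := B') (m := m) (Q := Q) (a := a') (x := x)
    hP hκ hc hη1 hη2 hQ (Kf C3 Q) i0 hi0
  -- lower bound for x
  have hxs : ∀ s : ℝ, T ≤ s → c * s ^ 4 / 32 ≤
      c * (s - Q) ^ 4 - 2 * κ * (s - Q) ^ 2 * (Q : ℝ) ^ 2 := by
    intro s hs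
    have h1 : 2 * (Q : ℝ) ≤ s := by linarith only [hs, hT, p1, p2, p3, p4, p5, hQ']
    have h2 : 16 * κ * Q ^ 2 / c ≤ s := by linarith only [hs, hT, p1, p2, p3, p4, p5, hQ']
    have hs1 : 1 ≤ s := by linarith only [hs, hT, p1, p2, p3, p4, p5, hQ']
    rw [div_le_iff₀ hc] at h2
    have h3 : s / 2 ≤ s - Q := by linarith only [h1]
    have h4 : (s / 2) ^ 2 ≤ (s - Q) ^ 2 := pow_le_pow_left₀ (by linarith only [hs1]) h3 2
    have h5 : 2 * κ * (Q : ℝ) ^ 2 ≤ c / 2 * (s - Q) ^ 2 := by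
      have h6 : s * c ≤ s * c * s := le_mul_of_one_le_right (by positivity) hs1
      have h7 : c / 2 * (s / 2) ^ 2 ≤ c / 2 * (s - Q) ^ 2 := by gcongr
      linarith only [h2, h6, h7]
    have h6 : (s / 2) ^ 4 ≤ (s - Q) ^ 4 := pow_le_pow_left₀ (by linarith only [hs1]) h3 4
    have h7 : 2 * κ * (Q : ℝ) ^ 2 * (s - Q) ^ 2 ≤ c / 2 * (s - Q) ^ 2 * (s - Q) ^ 2 :=
      mul_le_mul_of_nonneg_right h5 (by positivity)
    have h8 : c / 2 * (s - Q) ^ 2 * (s - Q) ^ 2 = c / 2 * (s - Q) ^ 4 := by ring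
    have h9 : c / 2 * (s / 2) ^ 4 ≤ c / 2 * (s - Q) ^ 4 := by gcongr
    have h10 : c / 2 * (s / 2) ^ 4 = c * s ^ 4 / 32 := by ring
    linarith only [h7, h8, h9, h10]
  -- step bound
  have hstep : ∀ i l : ℕ, i0 ≤ i → ρ * ((1 + Q * i : ℕ) : ℝ) ≤ ((a' + Q * l : ℕ) : ℝ) →
      ((a' + Q * l : ℕ) : ℝ) < ρ * ((1 + Q * i : ℕ) : ℝ) + Q * Kf C3 Q i →
      (PZ A' B' m (1 + Q * i) (a' + Q * l) : ℝ) - PZ A' B' m (1 + Q * i) (a' + Q * (l + 1)) ≤
        2 * κ * ((1 + Q * i : ℕ) : ℝ) ^ 2 * Q * (2 * (Q * Kf C3 Q i) + Q) := by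
    intro i l hi h1 h2
    obtain ⟨_, g2, _⟩ := hi0 i hi
    rw [PZ_cast, PZ_cast]
    set s : ℝ := ((1 + Q * i : ℕ) : ℝ) with hsdef
    set v : ℝ := ((a' + Q * l : ℕ) : ℝ) with hvdef
    have hs0 : 0 ≤ s := by rw [hsdef]; positivity
    have e1 : ((a' + Q * (l + 1) : ℕ) : ℝ) = ρ * s + ((v - ρ * s) + Q) := by
      rw [hvdef]; push_cast; ring
    have e2 : v = ρ * s + (v - ρ * s) := by ring
    have h3 := PR_step hP hη1 hη2 (s := s) (y := v - ρ * s) (q := Q) hs0 (by linarith only [h1])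
      hQ'.le (by linarith only [h2, g2, hQ'])
    rw [e1]
    rw [← e2] at h3
    refine h3.trans ?_
    have h4 : 2 * (v - ρ * s) + Q ≤ 2 * (Q * Kf C3 Q i) + Q := by linarith only [h2]
    gcongr
  -- the constant
  set g : ℝ := (32 / c) ^ (1 / 8 : ℝ) with hg
  have hgpos : 0 < g := Real.rpow_pos_of_pos (by positivity) _
  have hg8 : g ^ 8 = 32 / c := by
    rw [hg, ← Real.rpow_natCast, ← Real.rpow_mul (by positivity)]
    norm_num
  refine ⟨2 * κ * Q ^ 2 * (2 * C3 + 3) * g ^ 5, by positivity, ?_⟩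
  -- eventual bound for the bad pairs
  have hbadE := bad_eventually (A := A') (B := B') (m := m) (Q := Q) (a := a') (W := W)
    hP hρ hκ hc hη hη1 hη2 hQ hW1 ha'pos hQW hQW' hdisc hC3pos
  obtain ⟨R1, hR1⟩ := eventually_atTop.1 hbadE
  obtain ⟨R2, hR2⟩ := exists_nat_ge (2 / C3 + 2)
  set R0 : ℕ := R1 + R2 with hR0
  set x0 : ℕ := (PZ A' B' m (1 + Q * i0) (a' + Q * L0 ρ Q a' i0)).toNat with hx0
  obtain ⟨N1, hN1⟩ := exists_nat_ge (c / 32 * (Q * (R0 : ℝ) ^ 2) ^ 4)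
  obtain ⟨N2, hN2⟩ := exists_nat_ge (2 * x0 / δ)
  filter_upwards [eventually_ge_atTop N1, eventually_ge_atTop N2] with N hNN1 hNN2
  have hN1' : c / 32 * (Q * (R0 : ℝ) ^ 2) ^ 4 ≤ N := hN1.trans (by exact_mod_cast hNN1)
  have hN2' : 2 * x0 / δ ≤ N := hN2.trans (by exact_mod_cast hNN2)
  -- the choice of r
  have hex : ∃ r : ℕ, (N : ℝ) < c / 32 * (Q * (r : ℝ) ^ 2) ^ 4 := by
    obtain ⟨n, hn⟩ := exists_nat_gt ((N : ℝ) / (c / 32) + 1)
    refine ⟨n, ?_⟩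
    have h1 : (1 : ℝ) ≤ n := by
      have : (0 : ℝ) ≤ (N : ℝ) / (c / 32) := by positivity
      linarith only [this, hn]
    have h2 : (n : ℝ) ≤ (Q * (n : ℝ) ^ 2) ^ 4 := by
      have h3 : (1 : ℝ) ≤ (n : ℝ) ^ 2 := one_le_pow₀ h1
      have h4 : (n : ℝ) ≤ (n : ℝ) ^ 2 := le_self_pow₀ h1 (by norm_num)
      have h5 : (n : ℝ) ≤ Q * (n : ℝ) ^ 2 := by
        have : 1 * (n : ℝ) ^ 2 ≤ Q * (n : ℝ) ^ 2 := mul_le_mul_of_nonneg_right hQ1 (by positivity)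
        linarith only [this, h4]
      exact h5.trans (le_self_pow₀ (by linarith only [h1, h5]) (by norm_num))
    have h3 : (N : ℝ) / (c / 32) < (Q * (n : ℝ) ^ 2) ^ 4 := by linarith only [h2, hn]
    rw [div_lt_iff₀ (by positivity)] at h3
    linarith only [h3]
  obtain ⟨r, hr1, hr2⟩ : ∃ r : ℕ, (N : ℝ) < c / 32 * (Q * (r : ℝ) ^ 2) ^ 4 ∧
      ∀ j < r, ¬ (N : ℝ) < c / 32 * (Q * (j : ℝ) ^ 2) ^ 4 :=
    ⟨Nat.find hex, Nat.find_spec hex, fun j hj => Nat.find_min hex hj⟩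
  have hrR0 : R0 < r := by
    by_contra hcon
    push Not at hcon
    have h1 : (r : ℝ) ≤ R0 := by exact_mod_cast hcon
    have h2 : c / 32 * (Q * (r : ℝ) ^ 2) ^ 4 ≤ c / 32 * (Q * (R0 : ℝ) ^ 2) ^ 4 := by gcongr
    linarith only [h2, hr1, hN1']
  have hrR2 : 2 / C3 + 2 ≤ (r : ℝ) := by
    refine hR2.trans ?_
    have : R2 ≤ r := by omega
    exact_mod_cast this
  have hr0 : (0 : ℝ) < r := by
    have : 0 < 2 / C3 := by positivity
    linarith only [this, hrR2]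
  have hr2' : (2 : ℝ) ≤ r := by
    have : 0 < 2 / C3 := by positivity
    linarith only [this, hrR2]
  have hrC : 2 ≤ C3 * r := by
    have : 2 / C3 ≤ r := by linarith only [hrR2]
    rw [div_le_iff₀ hC3pos] at this
    linarith only [this]
  have hrN : c * (Q * (r : ℝ) ^ 2) ^ 4 ≤ 8192 * N := by
    have h1 := hr2 (r - 1) (by omega)
    push Not at h1
    have h2 : ((r - 1 : ℕ) : ℝ) = r - 1 := by
      rw [Nat.cast_sub (by omega)]; norm_num
    rw [h2] at h1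
    have h3 : (r : ℝ) ≤ 2 * (r - 1) := by linarith only [hr2']
    have h4 : c * (Q * (r : ℝ) ^ 2) ^ 4 ≤ c * (Q * (2 * ((r : ℝ) - 1)) ^ 2) ^ 4 := by gcongr
    have h5 : c * (Q * (2 * ((r : ℝ) - 1)) ^ 2) ^ 4 =
      8192 * (c / 32 * (Q * ((r : ℝ) - 1) ^ 2) ^ 4) := by ring
    rw [h5] at h4
    linarith only [h1, h4]
  set K : ℕ := ⌈C3 * r⌉₊ + 1 with hK
  set L : ℕ := ⌈ρ * (r : ℝ) ^ 2⌉₊ + K with hL
  set R := Reg ρ Q a' (r ^ 2) L K with hR
  have hbad : ((R.filter fun x => ¬ GoodT A' B' m Q a' W x).card : ℝ) ≤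
      7 * C3 * (r : ℝ) ^ 3 / W := hR1 r (by omega)
  set Bad := (R.filter fun x => ¬ GoodT A' B' m Q a' W x).filter fun x => i0 ≤ x.1 ∧
    ((a' + Q * x.2 : ℕ) : ℝ) < ρ * ((1 + Q * x.1 : ℕ) : ℝ) + Q * Kf C3 Q x.1 with hBad
  have hBadcard : (Bad.card : ℝ) ≤ 7 * C3 * (r : ℝ) ^ 3 / W := by
    refine le_trans ?_ hbad
    exact_mod_cast Finset.card_filter_le _ _
  set J : ℕ × ℕ → Finset ℕ := fun x =>
    Finset.Ico (PZ A' B' m (1 + Q * x.1) (a' + Q * (x.2 + 1))).toNat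
      (PZ A' B' m (1 + Q * x.1) (a' + Q * x.2)).toNat with hJ
  have hK2 : (K : ℝ) ≤ C3 * r + 2 := by
    have := Nat.ceil_lt_add_one (by positivity : 0 ≤ C3 * (r : ℝ))
    rw [hK]; push_cast; linarith only [this]
  have hK3 : (K : ℝ) ≤ 2 * C3 * r := by linarith only [hK2, hrC]
  have hK4 : (1 : ℝ) ≤ C3 * r := by linarith only [hrC]
  -- rows below r^2
  have hsS : ∀ i < r ^ 2, ((1 + Q * i : ℕ) : ℝ) ≤ Q * (r : ℝ) ^ 2 := by
    intro i hi
    have h3 : Q * (i + 1) ≤ Q * r ^ 2 := Nat.mul_le_mul_left Q hi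
    rw [Nat.mul_add, Nat.mul_one] at h3
    have h3 : 1 + Q * i ≤ Q * r ^ 2 := by omega
    exact_mod_cast h3
  have hKfK : ∀ i < r ^ 2, Kf C3 Q i ≤ K - 1 := by
    intro i hi
    have h1 : √(((1 + Q * i : ℕ) : ℝ) / Q) ≤ r := by
      rw [Real.sqrt_le_left hr0.le, div_le_iff₀ hQ']
      have := hsS i hi
      linarith only [this]
    have h2 : Kf C3 Q i ≤ ⌈C3 * (r : ℝ)⌉₊ := by
      unfold Kf
      apply Nat.ceil_mono
      exact mul_le_mul_of_nonneg_left h1 hC3pos.le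
    rw [hK]
    omega
  -- the cover
  have hsub : ((Finset.Icc 1 N).filter fun x : ℕ => ¬ ∃ d : ℕ, x ≤ d ∧
        (d : ℝ) ≤ x + (2 * κ * Q ^ 2 * (2 * C3 + 3) * g ^ 5) * (x : ℝ) ^ (5 / 8 : ℝ) ∧
        Squarefree d ∧ d ≡ a [MOD M] ∧
        {p : ℚ × ℚ | p.2 ^ 2 = p.1 ^ 3 + A * (d : ℚ) ^ 2 * p.1 +
          B * (d : ℚ) ^ 3}.Infinite) ⊆ range x0 ∪ Bad.biUnion J := by
    intro x hx
    obtain ⟨hx1, hxbad⟩ := Finset.mem_filter.1 hx
    obtain ⟨hx1, hxN⟩ := Finset.mem_Icc.1 hx1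
    by_cases hxx0 : x < x0
    · exact Finset.mem_union_left _ (Finset.mem_range.2 hxx0)
    refine Finset.mem_union_right _ ?_
    obtain ⟨i, l, hi, hv1, hv2, hPl, hPu, hxlow⟩ := hcov (x : ℤ) (by
      rw [hx0] at hxx0
      omega)
    have hs := hsT i hi.le
    have hxlow' : c * (((1 + Q * i : ℕ) : ℝ)) ^ 4 / 32 ≤ x := (hxs _ hs).trans (by
      rw [Int.cast_natCast] at hxlow
      exact hxlow)
    have hir : i < r ^ 2 := by
      by_contra hcon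
      push Not at hcon
      have h1 : Q * (r : ℝ) ^ 2 ≤ ((1 + Q * i : ℕ) : ℝ) := by
        have : Q * r ^ 2 ≤ 1 + Q * i := (Nat.mul_le_mul_left Q hcon).trans (by omega)
        exact_mod_cast this
      have h2 : (Q * (r : ℝ) ^ 2) ^ 4 ≤ (((1 + Q * i : ℕ) : ℝ)) ^ 4 := by gcongr
      have h3 : c / 32 * (Q * (r : ℝ) ^ 2) ^ 4 ≤ c / 32 * (((1 + Q * i : ℕ) : ℝ)) ^ 4 := by gcongr
      have h4 : (x : ℝ) ≤ N := by exact_mod_cast hxN
      linarith only [h3, h4, hr1, hxlow']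
    have hKfi := hKfK i hir
    have hK0 : 1 ≤ K := by rw [hK]; omega
    have hKfi' : (Kf C3 Q i : ℝ) ≤ K := by
      have : Kf C3 Q i ≤ K := by omega
      exact_mod_cast this
    have hsSi := hsS i hir
    have hiR : (i, l) ∈ R := by
      rw [hR, mem_Reg]
      refine ⟨⟨hir, ?_⟩, hv1, ?_⟩
      · have h1 : (l : ℝ) < L := by
          have h2 : (Q : ℝ) * l < Q * (ρ * (r : ℝ) ^ 2 + K) := by
            have h3 : (a' : ℝ) + Q * l < ρ * ((1 + Q * i : ℕ) : ℝ) + Q * Kf C3 Q i := by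
              have := hv2
              rw [Nat.cast_add a' (Q * l), Nat.cast_mul Q l] at this
              exact this
            have h4 : ρ * ((1 + Q * i : ℕ) : ℝ) ≤ ρ * (Q * (r : ℝ) ^ 2) :=
              mul_le_mul_of_nonneg_left hsSi hρ.le
            have h5 : (Q : ℝ) * Kf C3 Q i ≤ Q * K := mul_le_mul_of_nonneg_left hKfi' hQ'.le
            have h6 : (0 : ℝ) ≤ a' := Nat.cast_nonneg _
            linarith only [h3, h4, h5, h6]
          have h3 := lt_of_mul_lt_mul_left h2 hQ'.le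
          have h4 := Nat.le_ceil (ρ * (r : ℝ) ^ 2)
          rw [hL]; push_cast
          linarith only [h3, h4]
        exact_mod_cast h1
      · have h5 : (Q : ℝ) * Kf C3 Q i ≤ Q * K := mul_le_mul_of_nonneg_left hKfi' hQ'.le
        simp only
        linarith only [hv2, h5]
    rw [Finset.mem_biUnion]
    refine ⟨(i, l), ?_, ?_⟩
    · rw [hBad, Finset.mem_filter, Finset.mem_filter]
      refine ⟨⟨hiR, ?_⟩, hi.le, hv2⟩
      intro hgood
      apply hxbad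
      have hpos : 0 < PZ A' B' m (1 + Q * i) (a' + Q * l) := by omega
      have hH0v : H₀ < ((a' + Q * l : ℕ) : ℤ) := by
        have h1 : (|(H₀ : ℝ)| + 1) / ρ ≤ ((1 + Q * i : ℕ) : ℝ) := by
          linarith only [hs, hT, p1, p2, p3, p4, p5, hQ']
        rw [div_le_iff₀ hρ] at h1
        have h2 := le_abs_self (H₀ : ℝ)
        have h3 : (H₀ : ℝ) < ((a' + Q * l : ℕ) : ℝ) := by linarith only [h1, h2, hv1]
        exact_mod_cast h3
      obtain ⟨d, hd1, hd2, hd3, hd4⟩ := arith (A := A) (B := B) (M := M) (Q := Q) (W := W) (m := m)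
        (a := a) (a' := a') hQ hMQ hQm ha'cop ha'M hQW' hH hgood hpos hH0v
      refine ⟨d, ?_, ?_, hd2, hd3, hd4⟩
      · have : (x : ℤ) ≤ d := by rw [hd1]; exact hPu.le
        exact_mod_cast this
      · -- the length
        have h1 := hstep i l hi.le hv1 hv2
        have h2 : ((d : ℤ) : ℝ) = (PZ A' B' m (1 + Q * i) (a' + Q * l) : ℝ) := by rw [hd1]
        rw [Int.cast_natCast] at h2
        have h3 : (PZ A' B' m (1 + Q * i) (a' + Q * (l + 1)) : ℝ) ≤ x := by exact_mod_cast hPl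
        have h4 : (d : ℝ) - x ≤
          2 * κ * ((1 + Q * i : ℕ) : ℝ) ^ 2 * Q * (2 * (Q * Kf C3 Q i) + Q) := by
          rw [h2]; linarith only [h1, h3]
        set s : ℝ := ((1 + Q * i : ℕ) : ℝ) with hsdef
        have hs0 : 0 ≤ s := by rw [hsdef]; positivity
        have hsq1 := (hsq s hs).1
        have h5 : (Kf C3 Q i : ℝ) ≤ C3 * √s + 1 := by
          have h6 := hKf2 i
          rw [← hsdef] at h6
          have h7 : √(s / Q) ≤ √s := Real.sqrt_le_sqrt (div_le_self hs0 hQ1)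
          have h8 := mul_le_mul_of_nonneg_left h7 hC3pos.le
          linarith only [h6, h8]
        have h6 : 2 * (Q * Kf C3 Q i) + Q ≤ Q * ((2 * C3 + 3) * √s) := by
          have h7 : 2 * (Kf C3 Q i : ℝ) + 1 ≤ (2 * C3 + 3) * √s := by
            linarith only [h5, hsq1]
          have h8 := mul_le_mul_of_nonneg_left h7 hQ'.le
          linarith only [h8]
        have h7 : 2 * κ * s ^ 2 * Q * (2 * (Q * Kf C3 Q i) + Q) ≤
            2 * κ * s ^ 2 * Q * (Q * ((2 * C3 + 3) * √s)) :=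
          mul_le_mul_of_nonneg_left h6 (by positivity)
        have h8 : 2 * κ * s ^ 2 * Q * (Q * ((2 * C3 + 3) * √s)) =
            2 * κ * Q ^ 2 * (2 * C3 + 3) * (√s) ^ 5 := by
          have h9 : s ^ 2 = (√s) ^ 4 := by
            have : (√s) ^ 4 = ((√s) ^ 2) ^ 2 := by ring
            rw [this, Real.sq_sqrt hs0]
          rw [h9]; ring
        set w : ℝ := (x : ℝ) ^ (1 / 8 : ℝ) with hw
        have hx0' : (0 : ℝ) ≤ x := Nat.cast_nonneg _
        have hw0 : 0 ≤ w := Real.rpow_nonneg hx0' _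
        have hw8 : w ^ 8 = x := by
          rw [hw, ← Real.rpow_natCast, ← Real.rpow_mul hx0']
          norm_num
        have hw5 : w ^ 5 = (x : ℝ) ^ (5 / 8 : ℝ) := by
          rw [hw, ← Real.rpow_natCast, ← Real.rpow_mul hx0']
          norm_num
        have h9 : (√s) ^ 8 ≤ (g * w) ^ 8 := by
          have h10 : (√s) ^ 8 = s ^ 4 := by
            have : (√s) ^ 8 = ((√s) ^ 2) ^ 4 := by ring
            rw [this, Real.sq_sqrt hs0]
          rw [h10, mul_pow, hg8, hw8, div_mul_eq_mul_div, le_div_iff₀ hc]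
          linarith only [hxlow']
        have h10 : √s ≤ g * w := le_of_pow_le_pow_left₀ (by norm_num) (by positivity) h9
        have h11 : (√s) ^ 5 ≤ (g * w) ^ 5 := pow_le_pow_left₀ (Real.sqrt_nonneg _) h10 5
        have h12 : 2 * κ * Q ^ 2 * (2 * C3 + 3) * (√s) ^ 5 ≤
            2 * κ * Q ^ 2 * (2 * C3 + 3) * (g * w) ^ 5 := mul_le_mul_of_nonneg_left h11 (by positivity)
        have h13 : 2 * κ * Q ^ 2 * (2 * C3 + 3) * (g * w) ^ 5 =
            (2 * κ * Q ^ 2 * (2 * C3 + 3) * g ^ 5) * (x : ℝ) ^ (5 / 8 : ℝ) := by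
          rw [← hw5]; ring
        linarith only [h4, h7, h8, h12, h13]
    · rw [hJ, Finset.mem_Ico]
      simp only
      constructor
      · omega
      · omega
  -- counting
  have hcard1 := Finset.card_le_card hsub
  have hcard2 := Finset.card_union_le (range x0) (Bad.biUnion J)
  have hcard3 : ((Bad.biUnion J).card : ℝ) ≤ Bad.card * (12 * κ * Q ^ 4 * C3 * (r : ℝ) ^ 5) := by
    have h1 : ((Bad.biUnion J).card : ℝ) ≤ ∑ x ∈ Bad, ((J x).card : ℝ) := by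
      exact_mod_cast (Finset.card_biUnion_le : (Bad.biUnion J).card ≤ ∑ x ∈ Bad, (J x).card)
    refine h1.trans ?_
    rw [← nsmul_eq_mul]
    refine Finset.sum_le_card_nsmul _ _ _ ?_
    intro x hx
    obtain ⟨hx1, hx2, hx3⟩ := Finset.mem_filter.1 hx
    have hxR := mem_Reg.1 (Finset.mem_filter.1 hx1).1
    have hxr : x.1 < r ^ 2 := hxR.1.1
    refine card_toNat _ _ (by positivity) ?_
    refine (hstep x.1 x.2 hx2 hxR.2.1 hx3).trans ?_
    have h2 := hsS x.1 hxr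
    have h3 : (Kf C3 Q x.1 : ℝ) ≤ C3 * r + 1 := by
      have h4 : Kf C3 Q x.1 ≤ ⌈C3 * (r : ℝ)⌉₊ := by
        have := hKfK x.1 hxr
        omega
      have h5 : (Kf C3 Q x.1 : ℝ) ≤ (⌈C3 * (r : ℝ)⌉₊ : ℝ) := by exact_mod_cast h4
      have h6 := Nat.ceil_lt_add_one (by positivity : 0 ≤ C3 * (r : ℝ))
      linarith only [h5, h6]
    have h4 : 2 * (Q * (Kf C3 Q x.1 : ℝ)) + Q ≤ Q * (6 * (C3 * r)) := by
      have h5 : 2 * (Kf C3 Q x.1 : ℝ) + 1 ≤ 6 * (C3 * r) := by linarith only [h3, hrC]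
      have h6 := mul_le_mul_of_nonneg_left h5 hQ'.le
      linarith only [h6]
    have h5 : 2 * κ * ((1 + Q * x.1 : ℕ) : ℝ) ^ 2 * Q * (2 * (Q * (Kf C3 Q x.1 : ℝ)) + Q) ≤
        2 * κ * (Q * (r : ℝ) ^ 2) ^ 2 * Q * (Q * (6 * (C3 * r))) := by gcongr
    refine h5.trans (le_of_eq ?_)
    ring
  have hfin : (Bad.card : ℝ) * (12 * κ * Q ^ 4 * C3 * (r : ℝ) ^ 5) ≤ δ / 2 * N := by
    have h1 : (Bad.card : ℝ) * (12 * κ * Q ^ 4 * C3 * (r : ℝ) ^ 5) ≤
        (7 * C3 * (r : ℝ) ^ 3 / W) * (12 * κ * Q ^ 4 * C3 * (r : ℝ) ^ 5) :=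
      mul_le_mul_of_nonneg_right hBadcard (by positivity)
    have h2 : (7 * C3 * (r : ℝ) ^ 3 / W) * (12 * κ * Q ^ 4 * C3 * (r : ℝ) ^ 5) =
        84 * κ * C3 ^ 2 * Q ^ 4 * (r : ℝ) ^ 8 / W := by ring
    have h3 : 84 * κ * C3 ^ 2 * Q ^ 4 * (r : ℝ) ^ 8 / W =
        1344 * (c * (Q * (r : ℝ) ^ 2) ^ 4) / W := by
      rw [hC3sq]
      field_simp
      ring
    have h4 : 1344 * (c * (Q * (r : ℝ) ^ 2) ^ 4) / W ≤ 1344 * (8192 * N) / W := by gcongr
    have h5 : 1344 * (8192 * (N : ℝ)) / W ≤ δ / 2 * N := by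
      rw [div_le_iff₀ hW']
      rw [div_le_iff₀ hδ] at hWδ
      have h6 := mul_le_mul_of_nonneg_right hWδ (Nat.cast_nonneg (α := ℝ) N)
      linarith only [h6]
    rw [h2, h3] at h1
    linarith only [h1, h4, h5]
  have hx0N : (x0 : ℝ) ≤ δ / 2 * N := by
    rw [div_le_iff₀ hδ] at hN2'
    linarith only [hN2']
  have hcard4 : (((Finset.Icc 1 N).filter fun x : ℕ => ¬ ∃ d : ℕ, x ≤ d ∧
        (d : ℝ) ≤ x + (2 * κ * Q ^ 2 * (2 * C3 + 3) * g ^ 5) * (x : ℝ) ^ (5 / 8 : ℝ) ∧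
        Squarefree d ∧ d ≡ a [MOD M] ∧
        {p : ℚ × ℚ | p.2 ^ 2 = p.1 ^ 3 + A * (d : ℚ) ^ 2 * p.1 +
          B * (d : ℚ) ^ 3}.Infinite).card : ℝ) ≤ x0 + (Bad.biUnion J).card := by
    have h1 := hcard1.trans hcard2
    rw [Finset.card_range] at h1
    exact_mod_cast h1
  linarith only [hcard4, hcard3, hfin, hx0N]

end Pool.Agent.TH562.TW
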